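import Pool.Agent.MVD.Stmts

/-!
# Squad MVD, row F1K: the scheme `F1L` from `A1` and `B2`
-/

set_option autoImplicit false

namespace Pool.Agent.MVD.H62

open Pool.Agent.Helper14_MV Pool.Agent.Helper2_MV Pool.Agent.MVD

theorem tr {β : FIC} {a b c : List ℕ} (h : RR β a b) (h' : RR β b c) : RR β a c := β.trans h h'

/-- moving a letter to the left over a word -/
theorem mvl {β : FIC} {k : ℕ} (H : F1Lk β k) : ∀ (d p c r : List ℕ) (v : ℕ),
    d.length + c.length ≤ k + 1 →
    (∀ u ∈ d ++ c, 2 ≤ (p ++ (d ++ v :: (c ++ v :: r))).count u) →
    RR β (p ++ (d ++ v :: (c ++ v :: r))) (p ++ v :: (d ++ (c ++ v :: r))) := by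
  intro d
  induction d with
  | nil => intros; exact RR.refl _
  | cons u d ih =>
    intro p c r v hl hm
    have h1 := ih (p ++ [u]) c r v (by simp only [List.length_cons] at hl; omega) (by
      intro w hw
      have := hm w (by
        rw [List.cons_append]
        exact List.mem_cons_of_mem _ hw)
      simpa using this)
    have h1' : RR β (p ++ (u :: d ++ v :: (c ++ v :: r)))
        (p ++ u :: v :: ((d ++ c) ++ v :: r)) := by
      simpa using h1
    refine tr h1' ?_
    by_cases huv : u = v
    · subst huv
      have h2 : RR β (p ++ u :: u :: ((d ++ c) ++ u :: r)) (p ++ u :: u :: ((d ++ c) ++ u :: r)) :=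
        RR.refl _
      simpa using h2
    · have hc := hm u (by simp)
      have h2 := H p (d ++ c) r u v (by simp only [List.length_cons, List.length_append] at hl ⊢;
                                        omega) huv (by
          have h3 : 0 < (p ++ ((d ++ c) ++ r)).count u := by
            simp only [List.count_append, List.count_cons, List.cons_append] at hc ⊢
            have : ¬ (v == u) = true := by simpa using fun h => huv h.symm
            simp only [this] at hc
            simp at hc
            omega
          exact List.count_pos_iff.1 h3) (by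
          intro a ha
          have := hm a (by
            rw [List.cons_append]
            exact List.mem_cons_of_mem _ ha)
          simp only [List.count_append, List.count_cons, List.cons_append] at this ⊢
          omega)
      simpa using h2.symm

theorem zsf (g : ℕ → List ℕ) : ∀ (D : List ℕ) (s : ℕ),
    (∀ e (he : e < D.length), g (3 * (s + e) + 1) = [D[e]]) →
    (zs (List.range' s D.length)).flatMap g = D := by
  intro D
  induction D with
  | nil => intro s _; simp [zs]
  | cons a D ih =>
    intro s h
    have h0 := h 0 (by simp)
    have h1 := ih (s + 1) (fun e he => by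
      have := h (e + 1) (by simpa using he)
      rw [show s + (e + 1) = s + 1 + e by ring] at this
      simpa using this)
    rw [List.length_cons, List.range'_succ]
    simp only [zs, List.map_cons, List.flatMap_cons] at h1 ⊢
    rw [h1]
    simp only [Nat.add_zero, List.getElem_cons_zero] at h0
    rw [h0]
    rfl

theorem dup {c : List ℕ} (h : ¬ c.Nodup) : ∃ (v : ℕ) (c1 c2 c3 : List ℕ),
    c = c1 ++ v :: (c2 ++ v :: c3) := by
  obtain ⟨v, hv⟩ := List.exists_duplicate_iff_not_nodup.2 h
  rw [List.duplicate_iff_sublist, List.cons_sublist_iff] at hv
  obtain ⟨r1, r2, rfl, h1, h2⟩ := hv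
  rw [List.singleton_sublist] at h2
  obtain ⟨a, b, rfl⟩ := List.append_of_mem h1
  obtain ⟨a', b', rfl⟩ := List.append_of_mem h2
  exact ⟨v, a, b ++ a', b', by simp⟩

theorem stp {β : FIC} (hInw : InwStmt) {k : ℕ} (H : F1Lk β k)
    (hK : ∀ P Q : List ℕ, (P ++ Q).Perm (List.range (k + 2)) →
      RR β (bw P Q (k + 2)) (Wm P Q (1 :: 0 :: (zs (List.range' 1 (k + 1)) ++ [0])))) :
    F1Lk β (k + 1) := by
  intro p c q x y hl hxy hx hm
  by_cases hk : c.length ≤ k
  · exact H p c q x y hk hxy hx hm
  have hk1 : c.length = k + 1 := by omega
  have hyx : ¬ (y == x) = true := by simpa using fun h => hxy h.symm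
  have hxy' : ¬ (x == y) = true := by simpa using hxy
  by_cases hy : y ∈ c
  · obtain ⟨c1, c2, rfl⟩ := List.append_of_mem hy
    simp only [List.length_append, List.length_cons] at hk1
    have h1 := H p c1 (c2 ++ y :: q) x y (by omega) hxy (by
      simp only [List.mem_append, List.mem_cons] at hx ⊢
      tauto) (by
      intro a ha
      have := hm a (List.mem_append_left _ ha)
      simpa using this)
    simpa using h1
  by_cases hxc : x ∈ c
  · obtain ⟨c1, c2, rfl⟩ := List.append_of_mem hxc
    simp only [List.length_append, List.length_cons] at hk1
    have h1 := H p c1 (c2 ++ y :: q) y x (by omega) hxy.symm (by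
      simp) (by
      intro a ha
      have := hm a (List.mem_append_left _ ha)
      simp only [List.count_append, List.count_cons, List.cons_append] at this ⊢
      omega)
    have h2 := h1.symm
    simpa using h2
  by_cases hn : c.Nodup
  · -- the chain
    have hD : (x :: c).Nodup := List.nodup_cons.2 ⟨hxc, hn⟩
    have hmem : ∀ a ∈ x :: c, a ∈ p ∨ a ∈ q := by
      intro a ha
      rcases List.mem_cons.1 ha with rfl | ha
      · simp only [List.mem_append] at hx
        tauto
      · have h1 := hm a ha
        have h2 : c.count a = 1 := List.count_eq_one_of_mem hn ha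
        have h3 : ¬ (x == a) = true := by
          simp only [beq_iff_eq]
          rintro rfl
          exact hxc ha
        have h4 : ¬ (y == a) = true := by
          simp only [beq_iff_eq]
          rintro rfl
          exact hy ha
        simp only [List.count_append, List.count_cons, h3, h4, h2] at h1
        simp at h1
        by_contra h5
        push Not at h5
        have h6 := List.count_eq_zero_of_not_mem h5.1
        have h7 := List.count_eq_zero_of_not_mem h5.2
        omega
    obtain ⟨P, Q, g, M, hPQ, hL, hg0, hge⟩ := hInw p q (x :: c) y hD hmem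
    rw [List.length_cons, hk1] at hPQ
    have h1 := (RR.refl (β := β) M).append ((hK P Q hPQ).sub g)
    unfold bw at h1
    rw [← hL, ← hL] at h1
    have z1 : (zs (List.range (k + 2))).flatMap g = x :: c := by
      have := zsf g (x :: c) 0 (fun e he => by
        rw [Nat.zero_add]
        exact hge e he)
      rw [List.length_cons, hk1] at this
      rw [List.range_eq_range']
      exact this
    have z2 : g 1 = [x] := by
      have := hge 0 (by simp)
      simpa using this
    have z3 : (zs (List.range' 1 (k + 1))).flatMap g = c := by
      have := zsf g c 1 (fun e he => by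
        have := hge (e + 1) (by simpa using he)
        rw [show 1 + e = e + 1 by ring]
        simpa using this)
      rw [hk1] at this
      exact this
    have e1 : (0 :: (zs (List.range (k + 2)) ++ [0])).flatMap g = y :: x :: (c ++ [y]) := by
      rw [List.flatMap_cons, List.flatMap_append, z1, hg0, List.flatMap_singleton, hg0]
      simp
    have e2 : (1 :: 0 :: (zs (List.range' 1 (k + 1)) ++ [0])).flatMap g
        = x :: y :: (c ++ [y]) := by
      rw [List.flatMap_cons, List.flatMap_cons, List.flatMap_append, z3, z2, hg0,
        List.flatMap_singleton, hg0]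
      simp
    rw [e1, e2] at h1
    simpa using h1
  · obtain ⟨v, c1, c2, c3, rfl⟩ := dup hn
    simp only [List.length_append, List.length_cons] at hk1
    have hvx : v ≠ x := by
      rintro rfl
      exact hxc (by simp)
    have hvy : v ≠ y := by
      rintro rfl
      exact hy (by simp)
    have hcx : 2 ≤ (p ++ y :: x :: ((c1 ++ v :: (c2 ++ v :: c3)) ++ y :: q)).count x := by
      have h0 : 0 < (p ++ ((c1 ++ v :: (c2 ++ v :: c3)) ++ q)).count x := List.count_pos_iff.2 hx
      simp only [List.count_append, List.count_cons] at h0 ⊢
      simp only [beq_self_eq_true, if_true]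
      omega
    have hcy : 2 ≤ (p ++ y :: x :: ((c1 ++ v :: (c2 ++ v :: c3)) ++ y :: q)).count y := by
      simp only [List.count_append, List.count_cons]
      simp only [beq_self_eq_true, if_true]
      omega
    -- move `v` to the left
    have h1 := mvl H (y :: x :: c1) p c2 (c3 ++ y :: q) v (by
      simp only [List.length_cons]; omega) (by
      intro a ha
      have h0 : 2 ≤ (p ++ y :: x :: ((c1 ++ v :: (c2 ++ v :: c3)) ++ y :: q)).count a := by
        simp only [List.cons_append, List.mem_cons, List.mem_append] at ha
        rcases ha with rfl | rfl | ha | ha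
        · exact hcy
        · exact hcx
        · exact hm a (by simp [ha])
        · exact hm a (by simp [ha])
      simpa using h0)
    have h2 := mvl H (x :: y :: c1) p c2 (c3 ++ y :: q) v (by
      simp only [List.length_cons]; omega) (by
      intro a ha
      have h0 : 2 ≤ (p ++ y :: x :: ((c1 ++ v :: (c2 ++ v :: c3)) ++ y :: q)).count a := by
        simp only [List.cons_append, List.mem_cons, List.mem_append] at ha
        rcases ha with rfl | rfl | ha | ha
        · exact hcx
        · exact hcy
        · exact hm a (by simp [ha])
        · exact hm a (by simp [ha])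
      simp only [List.count_append, List.count_cons, List.cons_append] at h0 ⊢
      omega)
    have h3 := H (p ++ [v]) (c1 ++ (c2 ++ v :: c3)) q x y (by
      simp only [List.length_append, List.length_cons]; omega) hxy (by
      simp only [List.mem_append, List.mem_cons, List.not_mem_nil, or_false] at hx ⊢
      tauto) (by
      intro a ha
      have h0 : 2 ≤ (p ++ y :: x :: ((c1 ++ v :: (c2 ++ v :: c3)) ++ y :: q)).count a := by
        apply hm a
        simp only [List.mem_append, List.mem_cons] at ha ⊢
        tauto
      simp only [List.count_append, List.count_cons, List.count_nil] at h0 ⊢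
      omega)
    have h1' : RR β (p ++ y :: x :: ((c1 ++ v :: (c2 ++ v :: c3)) ++ y :: q))
        (p ++ v :: y :: x :: (c1 ++ (c2 ++ v :: (c3 ++ y :: q)))) := by
      simpa using h1
    have h2' : RR β (p ++ x :: y :: ((c1 ++ v :: (c2 ++ v :: c3)) ++ y :: q))
        (p ++ v :: x :: y :: (c1 ++ (c2 ++ v :: (c3 ++ y :: q)))) := by
      simpa using h2
    have h3' : RR β (p ++ v :: y :: x :: (c1 ++ (c2 ++ v :: (c3 ++ y :: q))))
        (p ++ v :: x :: y :: (c1 ++ (c2 ++ v :: (c3 ++ y :: q)))) := by
      simpa using h3
    exact tr h1' (tr h3' h2'.symm)

/-- **Row F1K**. -/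
theorem f1k (hKap : KapStmt) (hInw : InwStmt) (hCty : CtyStmt) : F1kStmt := by
  intro β hM h2 h3 hA hB
  obtain ⟨cA, -, cB, -, -⟩ := hCty β
  have h0 : F1Lk β 0 := by
    intro p c q x y hl hxy hx _
    obtain rfl : c = [] := List.eq_nil_of_length_eq_zero (by omega)
    simp only [List.nil_append, List.mem_append] at hx ⊢
    rcases hx with hx | hx
    · exact cB hB p q x y hx
    · exact cA hA p q x y hx
  have hk : ∀ k, F1Lk β k := by
    intro k
    induction k with
    | zero => exact h0
    | succ k ih => exact stp hInw ih (hKap β hM h2 h3 hA hB k ih)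
  intro p c q x y hxy hx hm
  exact hk c.length p c q x y le_rfl hxy hx hm

end Pool.Agent.MVD.H62
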