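import Pool.Agent.MVD.Stmts

/-!
# Squad MVD, row ORD: the order of two letters with rigid kinds is kept
-/

set_option autoImplicit false

namespace Pool.Agent.MVD.H62

open Pool.Agent.Helper14_MV Pool.Agent.Helper2_MV Pool.Agent.MVD

theorem bfr_iff (R : List ℕ) (a b : ℕ) : Bfr R a b ↔ [a, b].Sublist R := by
  constructor
  · rintro ⟨A, B, C, rfl⟩
    rw [List.cons_sublist_iff]
    refine ⟨A ++ [a], B ++ b :: C, by simp, by simp, ?_⟩
    rw [List.singleton_sublist]
    simp
  · intro h
    rw [List.cons_sublist_iff] at h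
    obtain ⟨r1, r2, rfl, h1, h2⟩ := h
    rw [List.singleton_sublist] at h2
    obtain ⟨x, y, rfl⟩ := List.append_of_mem h1
    obtain ⟨x', y', rfl⟩ := List.append_of_mem h2
    exact ⟨x, y ++ x', y', by simp⟩

/-- the projection of a block -/
def pb (u v : ℕ) (X : List ℕ) : List ℕ :=
  X.flatMap (fun c => if c = u then [0] else if c = v then [3] else [])

theorem pb_nil {u v : ℕ} {X : List ℕ} (hu : X.count u = 0) (hv : X.count v = 0) :
    pb u v X = [] := by
  rw [List.count_eq_zero] at hu hv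
  unfold pb
  rw [List.flatMap_eq_nil_iff]
  intro c hc
  rw [if_neg, if_neg]
  · rintro rfl
    exact hv hc
  · rintro rfl
    exact hu hc

theorem pb_append (u v : ℕ) (X Y : List ℕ) : pb u v (X ++ Y) = pb u v X ++ pb u v Y := by
  unfold pb
  rw [List.flatMap_append]

theorem pb_cons (u v a : ℕ) (X : List ℕ) :
    pb u v (a :: X) = (if a = u then [0] else if a = v then [3] else []) ++ pb u v X := by
  unfold pb
  rw [List.flatMap_cons]

theorem pb_u {u v : ℕ} (huv : u ≠ v) {X : List ℕ} (hu : X.count u = 1) (hv : X.count v = 0) :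
    pb u v X = [0] := by
  have h1 : u ∈ X := List.count_pos_iff.1 (by omega)
  obtain ⟨A, C, rfl⟩ := List.append_of_mem h1
  have hvu : ¬ (u == v) = true := by simpa using huv
  simp only [List.count_append, List.count_cons, beq_self_eq_true, if_true, hvu] at hu hv
  simp only [Bool.false_eq_true, if_false] at hv
  rw [pb_append, pb_cons, pb_nil (by omega) (by omega), pb_nil (by omega) (by omega), if_pos rfl]
  rfl

theorem pb_v {u v : ℕ} (huv : u ≠ v) {X : List ℕ} (hu : X.count u = 0) (hv : X.count v = 1) :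
    pb u v X = [3] := by
  have h1 : v ∈ X := List.count_pos_iff.1 (by omega)
  obtain ⟨A, C, rfl⟩ := List.append_of_mem h1
  have hvu : ¬ (v == u) = true := by simpa using huv.symm
  simp only [List.count_append, List.count_cons, beq_self_eq_true, if_true, hvu] at hu hv
  simp only [Bool.false_eq_true, if_false] at hu
  rw [pb_append, pb_cons, pb_nil (by omega) (by omega), pb_nil (by omega) (by omega),
    if_neg huv.symm, if_pos rfl]
  rfl

theorem pb_uv {u v : ℕ} (huv : u ≠ v) {X : List ℕ} (hu : X.count u = 1) (hv : X.count v = 1)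
    (h : Bfr X u v) : pb u v X = [0, 3] := by
  obtain ⟨A, B, C, rfl⟩ := h
  have hvu : ¬ (v == u) = true := by simpa using huv.symm
  have hvu' : ¬ (u == v) = true := by simpa using huv
  simp only [List.count_append, List.count_cons, beq_self_eq_true, if_true, hvu, hvu'] at hu hv
  simp only [Bool.false_eq_true, if_false] at hu hv
  rw [pb_append, pb_cons, pb_append, pb_cons, pb_nil (by omega) (by omega),
    pb_nil (by omega) (by omega), pb_nil (by omega) (by omega),
    if_pos rfl, if_neg huv.symm, if_pos rfl]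
  rfl

theorem pb_vu {u v : ℕ} (huv : u ≠ v) {X : List ℕ} (hu : X.count u = 1) (hv : X.count v = 1)
    (h : ¬ Bfr X u v) : pb u v X = [3, 0] := by
  have h1 : Bfr X v u := by
    have h1 : u ∈ X := List.count_pos_iff.1 (by omega)
    have h2 : v ∈ X := List.count_pos_iff.1 (by omega)
    obtain ⟨A, C, rfl⟩ := List.append_of_mem h1
    rw [List.mem_append, List.mem_cons] at h2
    rcases h2 with h2 | h2 | h2
    · obtain ⟨A1, A2, rfl⟩ := List.append_of_mem h2
      exact ⟨A1, A2, C, by simp⟩
    · exact absurd h2.symm huv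
    · obtain ⟨C1, C2, rfl⟩ := List.append_of_mem h2
      exact absurd ⟨A, C1, C2, rfl⟩ h
  obtain ⟨A, B, C, rfl⟩ := h1
  have hvu : ¬ (v == u) = true := by simpa using huv.symm
  have hvu' : ¬ (u == v) = true := by simpa using huv
  simp only [List.count_append, List.count_cons, beq_self_eq_true, if_true, hvu, hvu'] at hu hv
  simp only [Bool.false_eq_true, if_false] at hu hv
  rw [pb_append, pb_cons, pb_append, pb_cons, pb_nil (by omega) (by omega),
    pb_nil (by omega) (by omega), pb_nil (by omega) (by omega),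
    if_pos rfl, if_neg huv.symm, if_pos rfl]
  rfl

/-- the substitution -/
def gs (u v s1 s2 : ℕ) (c : ℕ) : List ℕ :=
  if c % 3 = 2 then (if c = 3 * s1 + 2 then [2] else if c = 3 * s2 + 2 then [5] else [])
  else if c = u then [0] else if c = v then [3] else []

theorem gs_sep {u v s1 s2 r : ℕ} :
    gs u v s1 s2 (3 * r + 2) = if r = s1 then [2] else if r = s2 then [5] else [] := by
  unfold gs
  rw [if_pos (by omega)]
  by_cases h1 : r = s1
  · subst h1; simp
  · rw [if_neg (by omega), if_neg h1]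
    by_cases h2 : r = s2
    · subst h2; simp
    · rw [if_neg (by omega), if_neg h2]

theorem gs_blk {u v s1 s2 : ℕ} {X : List ℕ} (hX : SFr X) :
    X.flatMap (gs u v s1 s2) = pb u v X := by
  unfold pb
  apply List.flatMap_congr
  intro c hc
  unfold gs
  rw [if_neg (hX c hc)]

theorem fm_eq {R : List ℕ} {F : ℕ → List ℕ} (p : ℕ → Bool) (h : ∀ r ∈ R, p r = false → F r = []) :
    R.flatMap F = (R.filter p).flatMap F := by
  induction R with
  | nil => rfl
  | cons a R ih =>
    rw [List.flatMap_cons, ih (fun r hr => h r (List.mem_cons_of_mem _ hr))]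
    by_cases hp : p a = true
    · rw [List.filter_cons_of_pos hp, List.flatMap_cons]
    · rw [List.filter_cons_of_neg hp, h a (List.mem_cons_self ..) (by simpa using hp),
        List.nil_append]

theorem bw_img {R : List ℕ} {B : ℕ → List ℕ} (hB : ∀ r ∈ R, SFr (B r)) {u v r1 r2 r3 : ℕ}
    (h12 : r1 ≠ r2) (h13 : r1 ≠ r3) (h23 : r2 ≠ r3) {p : ℕ → Bool}
    (hf : R.filter p = [r1, r2, r3]) (hu : ∀ r ∈ R, p r = false → (B r).count u = 0)
    (hv : ∀ r ∈ R, p r = false → (B r).count v = 0) :
    (Bw R B).flatMap (gs u v r1 r2) =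
      pb u v (B r1) ++ 2 :: (pb u v (B r2) ++ 5 :: pb u v (B r3)) := by
  have m1 : r1 ∈ R.filter p := by rw [hf]; simp
  have m2 : r2 ∈ R.filter p := by rw [hf]; simp
  have m3 : r3 ∈ R.filter p := by rw [hf]; simp
  rw [List.mem_filter] at m1 m2 m3
  unfold Bw
  rw [List.flatMap_assoc, fm_eq p, hf]
  · simp only [List.flatMap_cons, List.flatMap_nil, List.append_nil, List.flatMap_append, gs_sep]
    rw [gs_blk (hB r1 m1.1), gs_blk (hB r2 m2.1), gs_blk (hB r3 m3.1)]
    simp [h12.symm, h13.symm, h23.symm]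
  · intro r hr hp
    simp only [List.flatMap_cons, List.flatMap_nil, List.append_nil, List.flatMap_append, gs_sep]
    rw [gs_blk (hB r hr), pb_nil (hu r hr hp) (hv r hr hp), if_neg, if_neg]
    · rfl
    · rintro rfl
      rw [m2.2] at hp
      exact absurd hp (by simp)
    · rintro rfl
      rw [m1.2] at hp
      exact absurd hp (by simp)

theorem perm3 {l : List ℕ} {a b c : ℕ} (h : l.Perm [a, b, c]) :
    l = [a, b, c] ∨ l = [b, a, c] ∨ l = [a, c, b] ∨ l = [c, a, b] ∨ l = [b, c, a] ∨
      l = [c, b, a] := by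
  have h1 : l ∈ [a, b, c].permutations := List.mem_permutations.2 h
  have h2 : [a, b, c].permutations = [[a, b, c], [b, a, c], [c, b, a], [b, c, a], [c, a, b],
      [a, c, b]] := by
    simp [List.permutations, List.permutationsAux, List.permutationsAux.rec,
      List.permutationsAux2]
  rw [h2] at h1
  simp only [List.mem_cons, List.not_mem_nil, or_false] at h1
  tauto

theorem sub3 {x y a b c : ℕ} (h : [x, y].Sublist [a, b, c]) :
    (x = a ∧ y = b) ∨ (x = a ∧ y = c) ∨ (x = b ∧ y = c) := by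
  rw [← List.mem_sublists] at h
  simp [List.sublists] at h
  tauto

theorem swp {β : FIC} {l l' : List ℕ} (h : RR β l l') :
    RR β (l.flatMap (fun c => if c = 0 then [3] else if c = 3 then [0] else [c]))
      (l'.flatMap (fun c => if c = 0 then [3] else if c = 3 then [0] else [c])) := h.sub _

/-- **Row ORD**. -/
theorem ord : OrdStmt := by
  intro β _ R B B' hn hB hB' hrr b a1 a2 u v hb ha1 ha2 hb1 hb2 h12 huv _ _ cu cv cu' cv' hrg hbf
  by_contra hcon
  obtain ⟨g1, g2, g3, g4⟩ := hrg
  set p : ℕ → Bool := fun r => decide (r = a1 ∨ r = a2 ∨ r = b) with hp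
  have hperm : (R.filter p).Perm [a1, a2, b] := by
    rw [List.perm_ext_iff_of_nodup (hn.filter _)]
    · intro r
      rw [List.mem_filter, hp]
      simp only [decide_eq_true_eq, List.mem_cons, List.not_mem_nil, or_false]
      constructor
      · exact fun h => h.2
      · intro h
        refine ⟨?_, h⟩
        rcases h with rfl | rfl | rfl
        · exact ha1
        · exact ha2
        · exact hb
    · simp [h12, hb1.symm, hb2.symm]
  have hout : ∀ r ∈ R, p r = false → (B r).count u = 0 ∧ (B r).count v = 0 ∧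
      (B' r).count u = 0 ∧ (B' r).count v = 0 := by
    intro r hr hpr
    rw [hp] at hpr
    simp only [decide_eq_false_iff_not, not_or] at hpr
    rw [cu r hr, cv r hr, cu' r hr, cv' r hr, if_neg (by tauto), if_neg (by tauto)]
    simp
  -- the projections of the three blocks
  have eb : pb u v (B b) = [0, 3] := pb_uv huv (by rw [cu b hb]; simp) (by rw [cv b hb]; simp) hbf
  have eb' : pb u v (B' b) = [3, 0] :=
    pb_vu huv (by rw [cu' b hb]; simp) (by rw [cv' b hb]; simp) hcon
  have e1 : pb u v (B a1) = [0] := pb_u huv (by rw [cu a1 ha1]; simp)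
    (by rw [cv a1 ha1, if_neg]; rintro (h | h); exacts [hb1 h.symm, h12 h])
  have e1' : pb u v (B' a1) = [0] := pb_u huv (by rw [cu' a1 ha1]; simp)
    (by rw [cv' a1 ha1, if_neg]; rintro (h | h); exacts [hb1 h.symm, h12 h])
  have e2 : pb u v (B a2) = [3] := pb_v huv
    (by rw [cu a2 ha2, if_neg]; rintro (h | h); exacts [hb2 h.symm, h12 h.symm])
    (by rw [cv a2 ha2]; simp)
  have e2' : pb u v (B' a2) = [3] := pb_v huv
    (by rw [cu' a2 ha2, if_neg]; rintro (h | h); exacts [hb2 h.symm, h12 h.symm])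
    (by rw [cv' a2 ha2]; simp)
  -- the image of the relation
  have key : ∀ r1 r2 r3 : ℕ, r1 ≠ r2 → r1 ≠ r3 → r2 ≠ r3 → R.filter p = [r1, r2, r3] →
      RR β (pb u v (B r1) ++ 2 :: (pb u v (B r2) ++ 5 :: pb u v (B r3)))
        (pb u v (B' r1) ++ 2 :: (pb u v (B' r2) ++ 5 :: pb u v (B' r3))) := by
    intro r1 r2 r3 h1 h2 h3 hf
    have h := hrr.sub (gs u v r1 r2)
    rw [bw_img hB h1 h2 h3 hf (fun r hr hpr => (hout r hr hpr).1)
        (fun r hr hpr => (hout r hr hpr).2.1),
      bw_img hB' h1 h2 h3 hf (fun r hr hpr => (hout r hr hpr).2.2.1)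
        (fun r hr hpr => (hout r hr hpr).2.2.2)] at h
    exact h
  have pa1 : p a1 = true := by rw [hp]; simp
  have pa2 : p a2 = true := by rw [hp]; simp
  have pbb : p b = true := by rw [hp]; simp
  have k1 : Bfr R a1 b ↔ [a1, b].Sublist (R.filter p) := by
    rw [bfr_iff]
    constructor
    · intro h
      have := h.filter p
      rwa [List.filter_cons_of_pos pa1, List.filter_cons_of_pos pbb, List.filter_nil] at this
    · exact fun h => h.trans List.filter_sublist
  have k2 : Bfr R a2 b ↔ [a2, b].Sublist (R.filter p) := by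
    rw [bfr_iff]
    constructor
    · intro h
      have := h.filter p
      rwa [List.filter_cons_of_pos pa2, List.filter_cons_of_pos pbb, List.filter_nil] at this
    · exact fun h => h.trans List.filter_sublist
  have tt : ∀ (x y : ℕ) (l : List ℕ), Bfr l x y → [x, y].Sublist l := fun x y l h =>
    (bfr_iff l x y).1 h
  rcases perm3 hperm with hf | hf | hf | hf | hf | hf
  · -- a1 a2 b
    have h := key a1 a2 b h12 hb1.symm hb2.symm hf
    rw [e1, e2, eb, e1', e2', eb'] at h
    refine g1 ?_ ?_ h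
    · rw [k1, hf]; exact tt _ _ _ ⟨[], [a2], [], by simp⟩
    · rw [k2, hf]; exact tt _ _ _ ⟨[a1], [], [], by simp⟩
  · -- a2 a1 b
    have h := swp (key a2 a1 b h12.symm hb2.symm hb1.symm hf)
    rw [e1, e2, eb, e1', e2', eb'] at h
    have h' := h.symm
    refine g1 ?_ ?_ h'
    · rw [k1, hf]; exact tt _ _ _ ⟨[a2], [], [], by simp⟩
    · rw [k2, hf]; exact tt _ _ _ ⟨[], [a1], [], by simp⟩
  · -- a1 b a2
    have h := key a1 b a2 hb1.symm h12 hb2 hf
    rw [e1, e2, eb, e1', e2', eb'] at h
    refine g3 ?_ ?_ h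
    · rw [k1, hf]; exact tt _ _ _ ⟨[], [], [a2], by simp⟩
    · rw [k2, hf]
      intro hs
      rcases sub3 hs with ⟨h1, -⟩ | ⟨h1, -⟩ | ⟨h1, -⟩
      exacts [h12 h1.symm, h12 h1.symm, hb2 h1.symm]
  · -- b a1 a2
    have h := key b a1 a2 hb1 hb2 h12 hf
    rw [e1, e2, eb, e1', e2', eb'] at h
    refine g2 ?_ ?_ h
    · rw [k1, hf]
      intro hs
      rcases sub3 hs with ⟨h1, -⟩ | ⟨h1, -⟩ | ⟨-, h1⟩
      exacts [hb1 h1.symm, hb1 h1.symm, hb2 h1]
    · rw [k2, hf]
      intro hs
      rcases sub3 hs with ⟨h1, -⟩ | ⟨h1, -⟩ | ⟨h1, -⟩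
      exacts [hb2 h1.symm, hb2 h1.symm, h12 h1.symm]
  · -- a2 b a1
    have h := swp (key a2 b a1 hb2.symm h12.symm hb1 hf)
    rw [e1, e2, eb, e1', e2', eb'] at h
    have h' := h.symm
    refine g4 ?_ ?_ h'
    · rw [k1, hf]
      intro hs
      rcases sub3 hs with ⟨h1, -⟩ | ⟨h1, -⟩ | ⟨h1, -⟩
      exacts [h12 h1, h12 h1, hb1 h1.symm]
    · rw [k2, hf]; exact tt _ _ _ ⟨[], [], [a1], by simp⟩
  · -- b a2 a1
    have h := swp (key b a2 a1 hb2 hb1 h12.symm hf)
    rw [e1, e2, eb, e1', e2', eb'] at h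
    have h' := h.symm
    refine g2 ?_ ?_ h'
    · rw [k1, hf]
      intro hs
      rcases sub3 hs with ⟨h1, -⟩ | ⟨h1, -⟩ | ⟨h1, -⟩
      exacts [hb1 h1.symm, hb1 h1.symm, h12 h1]
    · rw [k2, hf]
      intro hs
      rcases sub3 hs with ⟨h1, -⟩ | ⟨h1, -⟩ | ⟨-, h1⟩
      exacts [hb2 h1.symm, hb2 h1.symm, hb1 h1]

end Pool.Agent.MVD.H62
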