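import Pool.Agent.Helper62_MVD.EscB
import Pool.Agent.Helper62_MVD.ORD

/-!
# Squad MVD, row ESC: the states of `C`
-/

set_option autoImplicit false

namespace Pool.Agent.MVD.H62

open Pool.Agent.Helper14_MV Pool.Agent.Helper2_MV Pool.Agent.MVD Esc

namespace Esc

theorem bfr_left {P Q : List ℕ} {i : ℕ} (hi : i ∈ P) : Bfr (lab P Q) (i + 1) 0 := by
  obtain ⟨X, Y, rfl⟩ := List.append_of_mem hi
  exact ⟨X.map (fun e => e + 1), Y.map (fun e => e + 1), Q.map (fun e => e + 1), by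
    unfold lab; simp⟩

theorem bfr_right {P Q : List ℕ} {i : ℕ} (hi : i ∈ Q) : Bfr (lab P Q) 0 (i + 1) := by
  obtain ⟨X, Y, rfl⟩ := List.append_of_mem hi
  exact ⟨P.map (fun e => e + 1), X.map (fun e => e + 1), Y.map (fun e => e + 1), by
    unfold lab; simp⟩

theorem eq_single {l : List ℕ} {t : ℕ} (h : ∀ a ∈ l, a = t) (hc : l.count t = 1) : l = [t] := by
  have h1 := List.eq_replicate_of_mem h
  have h2 : l.length = 1 := by
    rw [h1, List.count_replicate_self] at hc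
    exact hc
  rw [h1, h2]
  rfl

theorem filter_single {l : List ℕ} {t : ℕ} {p : ℕ → Bool} (hp : p t = true)
    (h : ∀ a ∈ l, p a = true → a = t) (hc : l.count t = 1) : l.filter p = [t] := by
  apply eq_single
  · intro a ha
    rw [List.mem_filter] at ha
    exact h a ha.1 ha.2
  · rw [List.count_filter hp, hc]

theorem filter_none {l : List ℕ} {p : ℕ → Bool} (h : ∀ a ∈ l, p a = false) :
    l.filter p = [] := by
  rw [List.filter_eq_nil_iff]
  intro a ha
  rw [h a ha]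
  simp

/-- `S2` and `S3` give `IA` -/
theorem ia_of {β : FIC} (h2 : S2 β) (h3 : S3 β) : IA β := by
  have e2 : RR β [0, 2, 0, 3, 5, 3] [0, 2, 3, 0, 5, 3] := h2
  have e3 : RR β [0, 2, 3, 5, 0, 3] [0, 2, 3, 5, 3, 0] := h3
  have f2 := e2.sub (fun c => if c = 5 then [] else [c])
  have f3 := e3.sub (fun c => if c = 5 then [] else [c])
  have g2 : RR β [0, 2, 0, 3, 3] [0, 2, 3, 0, 3] := by simpa using f2
  have g3 : RR β [0, 2, 3, 0, 3] [0, 2, 3, 3, 0] := by simpa using f3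
  exact β.trans g2 g3

theorem la_last {a b : ℕ} {K : List ℕ} (h : LA a b (K ++ [a])) (hab : b ≠ a) : False := by
  obtain ⟨A, C, h1, h2⟩ := h
  rcases List.eq_nil_or_concat C with h4 | ⟨C', c, h4⟩
  · rw [h4] at h1
    have := (List.append_inj' h1 rfl).2
    rw [List.cons.injEq] at this
    exact absurd this.1.symm hab
  · rw [List.concat_eq_append] at h4
    rw [h4] at h1
    have h5 : K ++ [a] = (A ++ b :: C') ++ [c] := by rw [h1]; simp
    have h6 := (List.append_inj' h5 rfl).2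
    rw [List.cons.injEq] at h6
    apply h2
    rw [h4, h6.1]
    simp

/-- keeps `12` and one of the letters `3`, `6` -/
def pF (y z h s1 s2 c : ℕ) : Bool :=
  decide (c ∉ [0, y, 3 * z + 1, 3 * h + 1, 3 * (s1 + 1) + 2, 3 * (s2 + 1) + 2,
    3 * (h + 1) + 2, 3 * (z + 1) + 2])

theorem pF_z {y z h s1 s2 i : ℕ} (hy : y % 3 = 0) (h1 : i ≠ z) (h2 : i ≠ h) :
    pF y z h s1 s2 (3 * i + 1) = true := by
  unfold pF
  simp only [decide_eq_true_eq, List.mem_cons, List.not_mem_nil, or_false, not_or]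
  exact ⟨by omega, by omega, by omega, by omega, by omega, by omega, by omega, by omega⟩

theorem pF_s {y z h s1 s2 i : ℕ} (hy : y % 3 = 0) (h1 : i ≠ z) (h2 : i ≠ h) (h3 : i ≠ s1)
    (h4 : i ≠ s2) : pF y z h s1 s2 (3 * (i + 1) + 2) = true := by
  unfold pF
  simp only [decide_eq_true_eq, List.mem_cons, List.not_mem_nil, or_false, not_or]
  exact ⟨by omega, by omega, by omega, by omega, by omega, by omega, by omega, by omega⟩

theorem pF_2 {y z h s1 s2 : ℕ} (hy : y % 3 = 0) : pF y z h s1 s2 2 = true := by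
  unfold pF
  simp only [decide_eq_true_eq, List.mem_cons, List.not_mem_nil, or_false, not_or]
  exact ⟨by omega, by omega, by omega, by omega, by omega, by omega, by omega, by omega⟩

theorem pF_c {y z h s1 s2 c : ℕ} (hc : c % 3 = 0) (h0 : c ≠ 0) (hy : c ≠ y) :
    pF y z h s1 s2 c = true := by
  unfold pF
  simp only [decide_eq_true_eq, List.mem_cons, List.not_mem_nil, or_false, not_or]
  exact ⟨by omega, by omega, by omega, by omega, by omega, by omega, by omega, by omega⟩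

theorem pF_f {y z h s1 s2 : ℕ} : pF y z h s1 s2 0 = false ∧ pF y z h s1 s2 y = false ∧
    pF y z h s1 s2 (3 * z + 1) = false ∧ pF y z h s1 s2 (3 * h + 1) = false ∧
    pF y z h s1 s2 (3 * (s1 + 1) + 2) = false ∧ pF y z h s1 s2 (3 * (s2 + 1) + 2) = false ∧
    pF y z h s1 s2 (3 * (h + 1) + 2) = false ∧ pF y z h s1 s2 (3 * (z + 1) + 2) = false := by
  unfold pF
  refine ⟨?_, ?_, ?_, ?_, ?_, ?_, ?_, ?_⟩ <;> simp

/-- keeps the letters of `α` and their places -/
def pE (z h s1 s2 r1 r2 c : ℕ) : Bool :=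
  decide (c ∉ [0, 3, 6, 12, 3 * z + 1, 3 * h + 1,
      3 * s1 + 1, 3 * s2 + 1, 3 * r1 + 1, 3 * r2 + 1, 3 * (s1 + 1) + 2, 3 * (s2 + 1) + 2,
      3 * (r1 + 1) + 2, 3 * (r2 + 1) + 2, 3 * (h + 1) + 2, 3 * (z + 1) + 2])

theorem pE_z {z h s1 s2 r1 r2 i : ℕ} (h1 : i ≠ z) (h2 : i ≠ h) (h3 : i ≠ s1) (h4 : i ≠ s2)
    (h5 : i ≠ r1) (h6 : i ≠ r2) : pE z h s1 s2 r1 r2 (3 * i + 1) = true := by
  unfold pE
  simp only [decide_eq_true_eq, List.mem_cons, List.not_mem_nil, or_false, not_or]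
  exact ⟨by omega, by omega, by omega, by omega, by omega, by omega, by omega, by omega,
    by omega, by omega, by omega, by omega, by omega, by omega, by omega, by omega⟩

theorem pE_s {z h s1 s2 r1 r2 i : ℕ} (h1 : i ≠ z) (h2 : i ≠ h) (h3 : i ≠ s1) (h4 : i ≠ s2)
    (h5 : i ≠ r1) (h6 : i ≠ r2) : pE z h s1 s2 r1 r2 (3 * (i + 1) + 2) = true := by
  unfold pE
  simp only [decide_eq_true_eq, List.mem_cons, List.not_mem_nil, or_false, not_or]
  exact ⟨by omega, by omega, by omega, by omega, by omega, by omega, by omega, by omega,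
    by omega, by omega, by omega, by omega, by omega, by omega, by omega, by omega⟩

theorem pE_2 {z h s1 s2 r1 r2 : ℕ} : pE z h s1 s2 r1 r2 2 = true := by
  unfold pE
  simp only [decide_eq_true_eq, List.mem_cons, List.not_mem_nil, or_false, not_or]
  exact ⟨by omega, by omega, by omega, by omega, by omega, by omega, by omega, by omega,
    by omega, by omega, by omega, by omega, by omega, by omega, by omega, by omega⟩

theorem pE_c {z h s1 s2 r1 r2 c : ℕ} (hc : c % 3 = 0) (h0 : 27 ≤ c) :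
    pE z h s1 s2 r1 r2 c = true := by
  unfold pE
  simp only [decide_eq_true_eq, List.mem_cons, List.not_mem_nil, or_false, not_or]
  exact ⟨by omega, by omega, by omega, by omega, by omega, by omega, by omega, by omega,
    by omega, by omega, by omega, by omega, by omega, by omega, by omega, by omega⟩

theorem pE_f {z h s1 s2 r1 r2 c : ℕ} (hc : c ∈ [0, 3, 6, 12, 3 * z + 1, 3 * h + 1,
      3 * s1 + 1, 3 * s2 + 1, 3 * r1 + 1, 3 * r2 + 1, 3 * (s1 + 1) + 2, 3 * (s2 + 1) + 2,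
      3 * (r1 + 1) + 2, 3 * (r2 + 1) + 2, 3 * (h + 1) + 2, 3 * (z + 1) + 2]) :
    pE z h s1 s2 r1 r2 c = false := by
  unfold pE
  rw [decide_eq_false_iff_not, not_not]
  exact hc

end Esc

theorem esc (h1 : ShaStmt) (h2 : XvbStmt) (h3 : EfaStmt) (h4 : EfbStmt) (h5 : RgaStmt)
    (h6 : RgdStmt) (h7 : ErdStmt) (h8 : ErnStmt) : EscStmt := by
  intro β n s1 s2 r1 r2 h z P1 P2 P3 Q α hE hnd f hf u hu
  obtain ⟨l, hl⟩ := hf
  have hc := hE.hc
  have hcan := hE.can
  have hNP := nd_perm hnd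
  simp only [List.nodup_cons, List.mem_cons, not_or] at hNP
  obtain ⟨⟨s12, s1r1, s1r2, s1h, s1z, s1m⟩, ⟨s2r1, s2r2, s2h, s2z, s2m⟩, ⟨r12, r1h, r1z, r1m⟩,
    ⟨r2h, r2z, r2m⟩, ⟨hhz, hm⟩, zm, hnPQ⟩ := hNP
  have hS : ∀ i, i ∈ P1 ++ (P2 ++ (P3 ++ h :: (Q ++ [z]))) ↔
      i = h ∨ i = z ∨ i ∈ (P1 ++ (P2 ++ P3)) ++ Q := by
    intro i
    simp only [List.mem_append, List.mem_cons, List.not_mem_nil, or_false]
    tauto
  have hSne : ∀ i ∈ P1 ++ (P2 ++ (P3 ++ h :: (Q ++ [z]))), i ≠ s1 ∧ i ≠ s2 ∧ i ≠ r1 ∧ i ≠ r2 := by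
    intro i hi
    rw [hS] at hi
    rcases hi with rfl | rfl | hi
    · exact ⟨fun e => s1h e.symm, fun e => s2h e.symm, fun e => r1h e.symm, fun e => r2h e.symm⟩
    · exact ⟨fun e => s1z e.symm, fun e => s2z e.symm, fun e => r1z e.symm, fun e => r2z e.symm⟩
    · exact ⟨fun e => s1m (e ▸ hi), fun e => s2m (e ▸ hi), fun e => r1m (e ▸ hi),
        fun e => r2m (e ▸ hi)⟩
  have hTne : ∀ i ∈ (P1 ++ (P2 ++ P3)) ++ Q, i ≠ s1 ∧ i ≠ s2 ∧ i ≠ r1 ∧ i ≠ r2 ∧ i ≠ h ∧
      i ≠ z := by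
    intro i hi
    exact ⟨fun e => s1m (e ▸ hi), fun e => s2m (e ▸ hi), fun e => r1m (e ▸ hi),
        fun e => r2m (e ▸ hi), fun e => hm (e ▸ hi), fun e => zm (e ▸ hi)⟩
  have hD : Unit → (s1 ≠ r1 ∧ s2 ≠ r1 ∧ s1 ≠ r2 ∧ s2 ≠ r2) := fun _ => ⟨s1r1, s2r1, s1r2, s2r2⟩
  have hRH : Unit → (r1 ≠ z ∧ r1 ≠ h ∧ r2 ≠ z ∧ r2 ≠ h) := fun _ => ⟨r1z, r1h, r2z, r2h⟩
  clear s12 s1r1 s1r2 s1h s1z s2r1 s2r2 s2h s2z r1h r1z r2h r2z
  -- the letters of `α`
  have hα1 : ∀ i, i ∉ (P1 ++ (P2 ++ P3)) ++ Q → 3 * i + 1 ∉ α := by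
    intro i hi hmem
    obtain ⟨j, hj, e⟩ := hcan.ps _ hmem (by omega)
    have : i = j := by omega
    exact hi (this ▸ hj)
  have hα2 : ∀ i ∈ (P1 ++ (P2 ++ P3)) ++ Q, α.count (3 * i + 1) = 1 := hcan.pl
  have hα3 : ∀ a, a < 27 → a % 3 = 0 → a ∉ α := by
    intro a ha h0 hmem
    have := (hcan.lc a hmem h0).2
    omega
  have hαh : α.count (3 * h + 1) = 0 := List.count_eq_zero.2 (hα1 h hm)
  have hαz : α.count (3 * z + 1) = 0 := List.count_eq_zero.2 (hα1 z zm)
  -- the given word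
  obtain ⟨R, hR⟩ : ∃ R, R = Rl s1 s2 r1 r2 h z P1 P2 P3 Q := ⟨_, rfl⟩
  have hRnd : R.Nodup := by
    rw [hR]
    exact nodup_lab hnd
  obtain ⟨B0, hB0⟩ : ∃ B0 : ℕ → List ℕ, B0 = fun r => (if r = 0 then
      (6 :: 3 :: (3 * z + 1) :: 0 :: (α ++ [3, 12, 6, 3 * h + 1, 9, 0])) else
      [k2 s1 s2 r1 r2 (r - 1)]).filter (fun a => decide (a ≠ 9)) := ⟨_, rfl⟩
  have hW : (EV s1 s2 r1 r2 h z P1 P2 P3 Q
      (6 :: 3 :: (3 * z + 1) :: 0 :: (α ++ [3, 12, 6, 3 * h + 1, 9, 0]))).filter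
        (fun a => decide (a ≠ 9)) = Bw R B0 := by
    rw [hB0, hR]
    unfold EV Wk
    exact bw_filter_ns _ _ _ (fun r _ => by simp only [decide_eq_true_eq]; omega)
  have hα9 : α.filter (fun a => decide (a ≠ 9)) = α := by
    rw [List.filter_eq_self]
    intro a ha
    simp only [decide_eq_true_eq]
    rintro rfl
    exact hα3 9 (by omega) (by omega) ha
  have hB00 : B0 0 = 6 :: 3 :: (3 * z + 1) :: 0 :: (α ++ [3, 12, 6, 3 * h + 1, 0]) := by
    rw [hB0]
    show List.filter (fun a => decide (a ≠ 9))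
      (6 :: 3 :: (3 * z + 1) :: 0 :: (α ++ [3, 12, 6, 3 * h + 1, 9, 0])) = _
    have q1 : (fun a => decide (a ≠ 9)) (3 * z + 1) = true := by
      simp only [decide_eq_true_eq]; omega
    have q2 : (fun a => decide (a ≠ 9)) (3 * h + 1) = true := by
      simp only [decide_eq_true_eq]; omega
    rw [List.filter_cons_of_pos (by decide), List.filter_cons_of_pos (by decide),
      List.filter_cons_of_pos (p := fun a => decide (a ≠ 9)) (a := 3 * z + 1) q1,
      List.filter_cons_of_pos (by decide), List.filter_append, hα9,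
      List.filter_cons_of_pos (by decide), List.filter_cons_of_pos (by decide),
      List.filter_cons_of_pos (by decide),
      List.filter_cons_of_pos (p := fun a => decide (a ≠ 9)) (a := 3 * h + 1) q2,
      List.filter_cons_of_neg (by decide), List.filter_cons_of_pos (by decide), List.filter_nil]
  have hB0i : ∀ i, B0 (i + 1) = [k2 s1 s2 r1 r2 i].filter (fun a => decide (a ≠ 9)) := by
    intro i
    rw [hB0]
    simp only [Nat.add_sub_cancel]
    rw [if_neg (Nat.succ_ne_zero i)]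
  have hB0s1 : B0 (s1 + 1) = [] := by
    rw [hB0i]
    unfold k2
    rw [if_pos (Or.inl rfl)]
    rfl
  have hB0s2 : B0 (s2 + 1) = [] := by
    rw [hB0i]
    unfold k2
    rw [if_pos (Or.inr rfl)]
    rfl
  have hB0r1 : B0 (r1 + 1) = [12] := by
    obtain ⟨s1r1, s2r1, -, -⟩ := hD ()
    rw [hB0i]
    unfold k2
    rw [if_neg (by rintro (e | e); exacts [s1r1 e.symm, s2r1 e.symm]), if_pos (Or.inl rfl)]
    rfl
  have hB0r2 : B0 (r2 + 1) = [12] := by
    obtain ⟨-, -, s1r2, s2r2⟩ := hD ()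
    rw [hB0i]
    unfold k2
    rw [if_neg (by rintro (e | e); exacts [s1r2 e.symm, s2r2 e.symm]), if_pos (Or.inr rfl)]
    rfl
  have hB0S : ∀ i ∈ P1 ++ (P2 ++ (P3 ++ h :: (Q ++ [z]))), B0 (i + 1) = [3 * i + 1] := by
    intro i hi
    obtain ⟨a1, a2, a3, a4⟩ := hSne i hi
    rw [hB0i]
    unfold k2
    rw [if_neg (by rintro (e | e); exacts [a1 e, a2 e]),
      if_neg (by rintro (e | e); exacts [a3 e, a4 e]),
      List.filter_cons_of_pos (by simp only [decide_eq_true_eq]; omega), List.filter_nil]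
  have hLc : ∀ c, (B0 0).count c = α.count c + ((if 6 = c then 2 else 0) +
      (if 3 = c then 2 else 0) + (if 0 = c then 2 else 0) + (if 12 = c then 1 else 0) +
      (if 3 * z + 1 = c then 1 else 0) + (if 3 * h + 1 = c then 1 else 0)) := by
    intro c
    rw [hB00]
    simp only [List.count_append, List.count_cons, beq_iff_eq, List.count_nil]
    split_ifs <;> omega
  have memR : ∀ q, q ∈ R ↔ q = 0 ∨ q = s1 + 1 ∨ q = s2 + 1 ∨ q = r1 + 1 ∨ q = r2 + 1 ∨
      ∃ i ∈ P1 ++ (P2 ++ (P3 ++ h :: (Q ++ [z]))), q = i + 1 := by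
    intro q
    rw [hR]
    exact mem_rl
  have zR : 0 ∈ R := (memR 0).2 (Or.inl rfl)
  have iR : ∀ i ∈ P1 ++ (P2 ++ (P3 ++ h :: (Q ++ [z]))), i + 1 ∈ R := fun i hi =>
    (memR _).2 (Or.inr (Or.inr (Or.inr (Or.inr (Or.inr ⟨i, hi, rfl⟩)))))
  have hB0f : ∀ r ∈ R, SFr (B0 r) := by
    intro r hr a ha
    rw [memR] at hr
    rcases hr with rfl | rfl | rfl | rfl | rfl | ⟨i, hi, rfl⟩
    · rw [hB00] at ha
      simp only [List.mem_cons, List.mem_append, List.not_mem_nil, or_false] at ha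
      rcases ha with e | e | e | e | e | e | e | e | e | e
      · omega
      · omega
      · omega
      · omega
      · exact hcan.sf a e
      · omega
      · omega
      · omega
      · omega
      · omega
    · rw [hB0s1] at ha
      simp at ha
    · rw [hB0s2] at ha
      simp at ha
    · rw [hB0r1, List.mem_singleton] at ha
      omega
    · rw [hB0r2, List.mem_singleton] at ha
      omega
    · rw [hB0S i hi, List.mem_singleton] at ha
      omega
  -- counts in the given word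
  have hpas : ∀ i ∈ P1 ++ (P2 ++ (P3 ++ h :: (Q ++ [z]))), ∀ q ∈ R,
      (B0 q).count (3 * i + 1) = if q = 0 ∨ q = i + 1 then 1 else 0 := by
    intro i hi q hq
    obtain ⟨a1, a2, a3, a4⟩ := hSne i hi
    rw [memR] at hq
    rcases hq with rfl | rfl | rfl | rfl | rfl | ⟨j, hj, rfl⟩
    · rw [hLc, if_pos (Or.inl rfl), if_neg (by omega), if_neg (by omega), if_neg (by omega),
        if_neg (by omega)]
      rw [hS] at hi
      rcases hi with rfl | rfl | hi
      · rw [hαh, if_neg (by omega), if_pos rfl]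
      · rw [hαz, if_pos rfl, if_neg (by omega)]
      · obtain ⟨-, -, -, -, b1, b2⟩ := hTne i hi
        rw [hα2 i hi, if_neg (by omega), if_neg (by omega)]
    · rw [hB0s1, if_neg (by omega), List.count_nil]
    · rw [hB0s2, if_neg (by omega), List.count_nil]
    · rw [hB0r1, if_neg (by omega), List.count_eq_zero, List.mem_singleton]
      omega
    · rw [hB0r2, if_neg (by omega), List.count_eq_zero, List.mem_singleton]
      omega
    · rw [hB0S j hj]
      by_cases hij : j = i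
      · rw [hij, if_pos (Or.inr rfl), List.count_cons_self, List.count_nil]
      · rw [if_neg (by omega), List.count_eq_zero, List.mem_singleton]
        omega
  have hloc : ∀ c, (c = 0 ∨ c = 3 ∨ c = 6 ∨ (c ∈ α ∧ c % 3 = 0)) → ∀ q ∈ R,
      (B0 q).count c = if q = 0 then 2 else 0 := by
    intro c hcc q hq
    have hc12 : c % 3 = 0 ∧ c ≠ 12 := by
      rcases hcc with e | e | e | e
      · omega
      · omega
      · omega
      · refine ⟨e.2, ?_⟩
        rintro rfl
        exact hα3 12 (by omega) (by omega) e.1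
    rw [memR] at hq
    rcases hq with rfl | rfl | rfl | rfl | rfl | ⟨j, hj, rfl⟩
    · rw [hLc, if_pos rfl]
      rcases hcc with rfl | rfl | rfl | e
      · rw [List.count_eq_zero.2 (hα3 0 (by omega) (by omega)), if_neg (by omega),
          if_neg (by omega), if_pos rfl, if_neg (by omega), if_neg (by omega), if_neg (by omega)]
      · rw [List.count_eq_zero.2 (hα3 3 (by omega) (by omega)), if_neg (by omega),
          if_pos rfl, if_neg (by omega), if_neg (by omega), if_neg (by omega), if_neg (by omega)]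
      · rw [List.count_eq_zero.2 (hα3 6 (by omega) (by omega)), if_pos rfl,
          if_neg (by omega), if_neg (by omega), if_neg (by omega), if_neg (by omega),
          if_neg (by omega)]
      · obtain ⟨e1, e2⟩ := hcan.lc c e.1 e.2
        rw [e1, if_neg (by omega),
          if_neg (by omega), if_neg (by omega), if_neg (by omega), if_neg (by omega),
          if_neg (by omega)]
    · rw [hB0s1, if_neg (by omega), List.count_nil]
    · rw [hB0s2, if_neg (by omega), List.count_nil]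
    · rw [hB0r1, if_neg (by omega), List.count_eq_zero, List.mem_singleton]
      omega
    · rw [hB0r2, if_neg (by omega), List.count_eq_zero, List.mem_singleton]
      omega
    · rw [hB0S j hj, if_neg (by omega), List.count_eq_zero, List.mem_singleton]
      omega
  have htw : ∀ q ∈ R, (B0 q).count 12 = if q = r1 + 1 ∨ q = r2 + 1 ∨ q = 0 then 1 else 0 := by
    intro q hq
    obtain ⟨s1r1, s2r1, s1r2, s2r2⟩ := hD ()
    rw [memR] at hq
    rcases hq with rfl | rfl | rfl | rfl | rfl | ⟨j, hj, rfl⟩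
    · rw [hLc, if_pos (Or.inr (Or.inr rfl)), List.count_eq_zero.2 (hα3 12 (by omega) (by omega)),
        if_neg (by omega), if_neg (by omega), if_neg (by omega), if_pos rfl, if_neg (by omega),
        if_neg (by omega)]
    · rw [hB0s1, if_neg (by omega), List.count_nil]
    · rw [hB0s2, if_neg (by omega), List.count_nil]
    · rw [hB0r1, if_pos (Or.inl rfl), List.count_cons_self, List.count_nil]
    · rw [hB0r2, if_pos (Or.inr (Or.inl rfl)), List.count_cons_self, List.count_nil]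
    · obtain ⟨a1, a2, a3, a4⟩ := hSne j hj
      rw [hB0S j hj, if_neg (by omega), List.count_eq_zero, List.mem_singleton]
      omega
  have hkind : ∀ a, a % 3 ≠ 2 → a = 12 ∨
      (∃ i ∈ P1 ++ (P2 ++ (P3 ++ h :: (Q ++ [z]))), a = 3 * i + 1) ∨
      (a = 0 ∨ a = 3 ∨ a = 6 ∨ (a ∈ α ∧ a % 3 = 0)) ∨ ∀ q ∈ R, a ∉ B0 q := by
    intro a ha
    by_contra hno
    push Not at hno
    obtain ⟨n1, n2, ⟨n3, n4, n5, n6⟩, q, hq, hmem⟩ := hno
    rw [memR] at hq
    rcases hq with rfl | rfl | rfl | rfl | rfl | ⟨j, hj, rfl⟩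
    · rw [hB00] at hmem
      simp only [List.mem_cons, List.mem_append, List.not_mem_nil, or_false] at hmem
      rcases hmem with e | e | e | e | e | e | e | e | e | e
      · exact n5 e
      · exact n4 e
      · exact n2 z ((hS z).2 (Or.inr (Or.inl rfl))) e
      · exact n3 e
      · by_cases h0 : a % 3 = 0
        · exact n6 e h0
        · obtain ⟨j, hj, e2⟩ := hcan.ps a e (by omega)
          exact n2 j ((hS j).2 (Or.inr (Or.inr hj))) e2
      · exact n4 e
      · exact n1 e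
      · exact n5 e
      · exact n2 h ((hS h).2 (Or.inl rfl)) e
      · exact n3 e
    · rw [hB0s1] at hmem
      simp at hmem
    · rw [hB0s2] at hmem
      simp at hmem
    · rw [hB0r1, List.mem_singleton] at hmem
      exact n1 hmem
    · rw [hB0r2, List.mem_singleton] at hmem
      exact n1 hmem
    · rw [hB0S j hj, List.mem_singleton] at hmem
      exact n2 j hj hmem
  -- SHA
  rw [hW] at hu
  obtain ⟨B, e, hBs, hes, hw, k1, kk2, k3⟩ := h1 β hc.i2 hc.i3 hc.na R B0 u hRnd hB0f hu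
  have spas : ∀ i ∈ P1 ++ (P2 ++ (P3 ++ h :: (Q ++ [z]))), (∀ q ∈ R,
      (B q).count (3 * i + 1) = if q = 0 ∨ q = i + 1 then 1 else 0) ∧
        e.count (3 * i + 1) = 0 := fun i hi =>
    kk2 (3 * i + 1) 0 (i + 1) (by omega) zR (iR i hi) (by omega) (hpas i hi)
  have sloc : ∀ c, (c = 0 ∨ c = 3 ∨ c = 6 ∨ (c ∈ α ∧ c % 3 = 0)) → (∀ q ∈ R,
      (B q).count c = if q = 0 then 2 else 0) ∧ e.count c = 0 := fun c hcc =>
    k3 c 0 (by omega) zR (hloc c hcc)
  have hx := h2 β hE.vx (P1.map (fun e => e + 1) ++ [s1 + 1]) (P2.map (fun e => e + 1) ++ [s2 + 1])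
    (P3.map (fun e => e + 1) ++ [h + 1]) (Q.map (fun e => e + 1) ++ [z + 1]) (r1 + 1) (r2 + 1) 0
    B0 B e 12
  rw [← rl_xvb, ← hR] at hx
  rw [hw] at hu
  obtain ⟨x1, x2, x3⟩ := hx hRnd hB0f (fun r _ => hBs r) hes (by omega) htw hu
  have he : e = [] := by
    rw [List.eq_nil_iff_forall_not_mem]
    intro a ha
    rcases hkind a (hes a ha) with rfl | ⟨i, hi, rfl⟩ | hl' | hno
    · exact List.count_eq_zero.1 x3 ha
    · exact List.count_eq_zero.1 (spas i hi).2 ha
    · exact List.count_eq_zero.1 (sloc a hl').2 ha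
    · exact (k1 a hno).2 ha
  rw [he, List.append_nil] at hw hu
  have hbl : ∀ r ∈ R, r ≠ 0 → ∀ a ∈ B r, a = 12 ∨ a = 3 * (r - 1) + 1 := by
    intro r hr hr0 a ha
    rcases hkind a (hBs r a ha) with rfl | ⟨i, hi, rfl⟩ | hl' | hno
    · exact Or.inl rfl
    · right
      have q1 := (spas i hi).1 r hr
      have q2 := List.count_pos_iff.2 ha
      by_cases hri : r = 0 ∨ r = i + 1
      · omega
      · rw [if_neg hri] at q1
        omega
    · exfalso
      have q1 := (sloc a hl').1 r hr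
      have q2 := List.count_pos_iff.2 ha
      rw [if_neg hr0] at q1
      omega
    · exact absurd ha ((k1 a hno).1 r hr)
  have hb12 : ∀ i, (i = h ∨ i = z ∨ i ∈ P3 ∨ i ∈ Q) → 12 ∉ B (i + 1) := by
    intro i hi
    rw [← List.count_eq_zero]
    apply x2
    simp only [List.mem_append, List.mem_map, List.mem_singleton]
    rcases hi with rfl | rfl | hi | hi
    · exact Or.inl (Or.inr rfl)
    · exact Or.inr (Or.inr rfl)
    · exact Or.inl (Or.inl ⟨i, hi, rfl⟩)
    · exact Or.inr (Or.inl ⟨i, hi, rfl⟩)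
  have hBi : ∀ i, (i = h ∨ i = z ∨ i ∈ P3 ∨ i ∈ Q) → B (i + 1) = [3 * i + 1] := by
    intro i hi
    have hiS : i ∈ P1 ++ (P2 ++ (P3 ++ h :: (Q ++ [z]))) := by
      rw [hS]
      rcases hi with hi | hi | hi | hi
      · exact Or.inl hi
      · exact Or.inr (Or.inl hi)
      · exact Or.inr (Or.inr (List.mem_append_left _ (List.mem_append_right _
          (List.mem_append_right _ hi))))
      · exact Or.inr (Or.inr (List.mem_append_right _ hi))
    apply eq_single
    · intro a ha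
      rcases hbl (i + 1) (iR i hiS) (Nat.succ_ne_zero i) a ha with q | q
      · exact absurd (q ▸ ha) (hb12 i hi)
      · rw [q, Nat.add_sub_cancel]
    · rw [(spas i hiS).1 (i + 1) (iR i hiS), if_pos (Or.inr rfl)]
  have hB0cnt : ∀ a, a ≠ 12 → (B 0).count a = (B0 0).count a := by
    intro a ha
    by_cases ha2 : a % 3 = 2
    · rw [List.count_eq_zero.2 (fun hm' => hBs 0 a hm' ha2),
        List.count_eq_zero.2 (fun hm' => hB0f 0 zR a hm' ha2)]
    · rcases hkind a ha2 with q | ⟨i, hi, rfl⟩ | hl' | hno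
      · exact absurd q ha
      · rw [(spas i hi).1 0 zR, hpas i hi 0 zR]
      · rw [(sloc a hl').1 0 zR, hloc a hl' 0 zR]
      · rw [List.count_eq_zero.2 ((k1 a hno).1 0 zR), List.count_eq_zero.2 (hno 0 zR)]
  -- orders
  have hpl : ∀ i ∈ P1 ++ (P2 ++ P3) ++ [h], Bfr R (i + 1) 0 := by
    intro i hi
    rw [hR]
    apply bfr_left
    simp only [List.mem_append, List.mem_cons, List.not_mem_nil, or_false] at hi ⊢
    rcases hi with (hi | hi | hi) | hi
    · exact Or.inl hi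
    · exact Or.inr (Or.inr (Or.inr (Or.inl hi)))
    · exact Or.inr (Or.inr (Or.inr (Or.inr (Or.inr (Or.inr (Or.inl hi))))))
    · exact Or.inr (Or.inr (Or.inr (Or.inr (Or.inr (Or.inr (Or.inr hi))))))
  have hpr : ∀ i ∈ Q ++ [z], Bfr R 0 (i + 1) := by
    intro i hi
    rw [hR]
    exact bfr_right hi
  have hu' : RR β (Bw R B0 ++ []) (Bw R B ++ []) := by
    rw [List.append_nil, List.append_nil]
    exact hu
  have rga : ∀ a i, (a = 0 ∨ a = 3 ∨ a = 6) → i ∈ P1 ++ (P2 ++ P3) ++ [h] →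
      (LA a (3 * i + 1) (B0 0) ↔ LA a (3 * i + 1) (B 0)) := by
    intro a i ha hi
    have hiS : i ∈ P1 ++ (P2 ++ (P3 ++ h :: (Q ++ [z]))) := by
      rw [hS]
      rw [List.mem_append, List.mem_singleton] at hi
      rcases hi with hi | hi
      · exact Or.inr (Or.inr (List.mem_append_left _ hi))
      · exact Or.inl hi
    have ha' : a = 0 ∨ a = 3 ∨ a = 6 ∨ (a ∈ α ∧ a % 3 = 0) := by
      rcases ha with q | q | q
      · exact Or.inl q
      · exact Or.inr (Or.inl q)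
      · exact Or.inr (Or.inr (Or.inl q))
    exact h5 β hc.s2 hc.na R B0 B [] [] hRnd hB0f (fun r _ => hBs r) (by intro c hc'; simp at hc')
      (by intro c hc'; simp at hc') hu' a (3 * i + 1) 0 (i + 1) (by omega) (by omega) (by omega)
      (hpl i hi) (hloc a ha') (sloc a ha').1
      (fun q hq => by rw [hpas i hiS q hq]; apply if_congr (Or.comm) rfl rfl)
      (fun q hq => by rw [(spas i hiS).1 q hq]; apply if_congr (Or.comm) rfl rfl) rfl rfl rfl rfl
  have rgd : ∀ a i, (a = 0 ∨ a = 3 ∨ a = 6) → i ∈ Q ++ [z] →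
      (FA a (3 * i + 1) (B0 0) ↔ FA a (3 * i + 1) (B 0)) := by
    intro a i ha hi
    have hiS : i ∈ P1 ++ (P2 ++ (P3 ++ h :: (Q ++ [z]))) := by
      rw [hS]
      rw [List.mem_append, List.mem_singleton] at hi
      rcases hi with hi | hi
      · exact Or.inr (Or.inr (List.mem_append_right _ hi))
      · exact Or.inr (Or.inl hi)
    have ha' : a = 0 ∨ a = 3 ∨ a = 6 ∨ (a ∈ α ∧ a % 3 = 0) := by
      rcases ha with q | q | q
      · exact Or.inl q
      · exact Or.inr (Or.inl q)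
      · exact Or.inr (Or.inr (Or.inl q))
    exact h6 β hc.s2 hc.nad R B0 B [] [] hRnd hB0f (fun r _ => hBs r) (by intro c hc'; simp at hc')
      (by intro c hc'; simp at hc') hu' a (3 * i + 1) 0 (i + 1) (by omega) (by omega) (by omega)
      (hpr i hi) (hloc a ha') (sloc a ha').1
      (fun q hq => by rw [hpas i hiS q hq]; apply if_congr (Or.comm) rfl rfl)
      (fun q hq => by rw [(spas i hiS).1 q hq]; apply if_congr (Or.comm) rfl rfl) rfl rfl rfl rfl
  -- more facts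
  have hhS : h ∈ P1 ++ (P2 ++ (P3 ++ h :: (Q ++ [z]))) := (hS h).2 (Or.inl rfl)
  have hzS : z ∈ P1 ++ (P2 ++ (P3 ++ h :: (Q ++ [z]))) := (hS z).2 (Or.inr (Or.inl rfl))
  have memT : ∀ i ∈ (P1 ++ (P2 ++ P3)) ++ Q, 3 * i + 1 ∈ α := fun i hi =>
    List.count_pos_iff.1 (by rw [hα2 i hi]; omega)
  have hK : ∀ d ∈ B 0, d = 12 ∨ d = 6 ∨ d = 3 ∨ d = 0 ∨ d = 3 * h + 1 ∨ d = 3 * z + 1 ∨
      d ∈ α := by
    intro d hd
    rcases hkind d (hBs 0 d hd) with q | ⟨i, hi, rfl⟩ | (q | q | q | q) | hno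
    · exact Or.inl q
    · rw [hS] at hi
      rcases hi with rfl | rfl | hi
      · exact Or.inr (Or.inr (Or.inr (Or.inr (Or.inl rfl))))
      · exact Or.inr (Or.inr (Or.inr (Or.inr (Or.inr (Or.inl rfl)))))
      · exact Or.inr (Or.inr (Or.inr (Or.inr (Or.inr (Or.inr (memT i hi))))))
    · exact Or.inr (Or.inr (Or.inr (Or.inl q)))
    · exact Or.inr (Or.inr (Or.inl q))
    · exact Or.inr (Or.inl q)
    · exact Or.inr (Or.inr (Or.inr (Or.inr (Or.inr (Or.inr q.1)))))
    · exact absurd hd ((k1 d hno).1 0 zR)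
  -- the projections which keep `12`
  have hprj : ∀ y : ℕ, y % 3 = 0 → y ≠ 12 → ∀ p : ℕ → Bool, p = pF y z h s1 s2 →
      ∃ (B2 : ℕ → List ℕ) (e2 Z : List ℕ),
        (∀ r ∈ lab (P1 ++ r1 :: (P2 ++ r2 :: P3)) Q, SFr (B2 r)) ∧ SFr e2 ∧
        RR β (EW 12 r1 r2 P1 P2 P3 Q ((B0 0).filter p))
          (Bw (lab (P1 ++ r1 :: (P2 ++ r2 :: P3)) Q) B2 ++ e2) ∧ B2 0 = Z ++ (B 0).filter p := by
    intro y hy hy12 p hp
    obtain ⟨s1r1, s2r1, s1r2, s2r2⟩ := hD ()
    obtain ⟨r1z, r1h, r2z, r2h⟩ := hRH ()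
    obtain ⟨-, -, pzz, pzh, ps1, ps2, ph, pz⟩ := pF_f (y := y) (z := z) (h := h) (s1 := s1)
      (s2 := s2)
    rw [← hp] at pzz pzh ps1 ps2 ph pz
    have p12 : p 12 = true := by rw [hp]; exact pF_c rfl (fun q => by simp at q) hy12.symm
    have p2 : p 2 = true := by rw [hp]; exact pF_2 hy
    have pr1 : p (3 * (r1 + 1) + 2) = true := by
      rw [hp]; exact pF_s hy r1z r1h s1r1.symm s2r1.symm
    have pr2 : p (3 * (r2 + 1) + 2) = true := by
      rw [hp]; exact pF_s hy r2z r2h s1r2.symm s2r2.symm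
    have pi : ∀ i ∈ (P1 ++ (P2 ++ P3)) ++ Q, p (3 * (i + 1) + 2) = true ∧
        p (3 * i + 1) = true := by
      intro i hi
      obtain ⟨a1, a2, a3, a4, a5, a6⟩ := hTne i hi
      rw [hp]
      exact ⟨pF_s hy a6 a5 a1 a2, pF_z hy a6 a5⟩
    have E0 : (Bw R B0).filter p = EW 12 r1 r2 P1 P2 P3 Q ((B0 0).filter p) := by
      rw [hR]
      refine proj_ew r12 p2 ⟨by rw [hB0s1]; rfl, ps1⟩ ⟨by rw [hB0s2]; rfl, ps2⟩
        ⟨by rw [hB0r1, List.filter_cons_of_pos p12, List.filter_nil], pr1⟩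
        ⟨by rw [hB0r2, List.filter_cons_of_pos p12, List.filter_nil], pr2⟩ ⟨?_, ph⟩ ⟨?_, pz⟩ ?_
      · rw [hB0S h hhS, List.filter_cons_of_neg (by rw [pzh]; simp),
          List.filter_nil]
      · rw [hB0S z hzS, List.filter_cons_of_neg (by rw [pzz]; simp),
          List.filter_nil]
      · intro i hi
        obtain ⟨a1, a2, a3, a4, a5, a6⟩ := hTne i hi
        refine ⟨a3, a4, ?_, (pi i hi).1⟩
        rw [hB0S i ((hS i).2 (Or.inr (Or.inr hi))), List.filter_cons_of_pos (pi i hi).2,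
          List.filter_nil]
    obtain ⟨B2, e2, E1, E2, E3, E4⟩ := era p B R hRnd [] (by intro c hc'; simp at hc')
      (fun r _ => hBs r)
    have E5 : R.filter (fun r => p (3 * r + 2)) = lab (P1 ++ r1 :: (P2 ++ r2 :: P3)) Q := by
      rw [hR]
      exact proj_lab p2 ps1 ps2 pr1 pr2 ph pz (fun i hi => (pi i hi).1)
    rw [E5] at E1 E2 E4
    obtain ⟨Z, hZ⟩ := E4 0 (by unfold lab; simp)
    refine ⟨B2, e2, Z, E2, E3, ?_, hZ⟩
    rw [← E0, ← E1, List.nil_append]
    exact RR.filter p hu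
  have hαF : ∀ y, y % 3 = 0 → y < 27 → α.filter (pF y z h s1 s2) = α := by
    intro y hy hy2
    rw [List.filter_eq_self]
    intro a ha
    have q1 := hcan.sf a ha
    by_cases h0 : a % 3 = 0
    · have q2 := (hcan.lc a ha h0).2
      exact pF_c h0 (by omega) (by omega)
    · obtain ⟨i, hi, rfl⟩ := hcan.ps a ha (by omega)
      obtain ⟨a1, a2, a3, a4, a5, a6⟩ := hTne i hi
      exact pF_z hy a6 a5
  have hndr : ((P1 ++ r1 :: (P2 ++ r2 :: P3)) ++ Q).Nodup := by
    have e1 : ((P1 ++ r1 :: (P2 ++ r2 :: P3)) ++ Q).Perm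
        (r1 :: r2 :: ((P1 ++ (P2 ++ P3)) ++ Q)) := by
      rw [List.perm_iff_count]
      intro c
      simp only [List.count_append, List.count_cons]
      omega
    rw [e1.nodup_iff, List.nodup_cons, List.nodup_cons, List.mem_cons, not_or]
    exact ⟨⟨r12, r1m⟩, r2m, hnPQ⟩
  have L1 : LA 3 12 (B 0) := by
    obtain ⟨p, hp⟩ : ∃ p : ℕ → Bool, p = pF 6 z h s1 s2 := ⟨_, rfl⟩
    obtain ⟨B2, e2, Z, g1, g2, g3, g4⟩ := hprj 6 rfl (fun q => by simp at q) p hp
    have hE' := h8 β n 9 0 s1 s2 12 3 r1 r2 P1 P2 P3 Q α hE rfl (by decide) rfl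
      (by decide) (by decide) hndr
    have pα : α.filter p = α := by rw [hp]; exact hαF 6 rfl (by decide)
    obtain ⟨q0, q6, qz, qh, -, -, -, -⟩ := pF_f (y := 6) (z := z) (h := h) (s1 := s1)
      (s2 := s2)
    have q3 : pF 6 z h s1 s2 3 = true := pF_c rfl (by decide) (by decide)
    have q12 : pF 6 z h s1 s2 12 = true := pF_c rfl (by decide) (by decide)
    rw [← hp] at q0 q6 qz qh q3 q12
    have g5 : (B0 0).filter p = 3 :: (α ++ [3, 12]) := by
      rw [hB00]
      simp only [List.filter_cons, List.filter_append, List.filter_nil, q0, q6, qz, qh, q3, q12,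
        pα, Bool.false_eq_true, if_false, if_true]
    rw [g5] at g3
    have g6 := h4 β n 12 3 r1 r2 P1 P2 P3 Q α hE' B2 e2 g1 g2 g3
    rw [g4] at g6
    exact la_filter (la_pre g6 (List.mem_filter.2 ⟨List.count_pos_iff.1 (by rw [x1]; decide),
      q12⟩)) q3 q12
  have L2 : LA 12 6 (B 0) := by
    obtain ⟨p, hp⟩ : ∃ p : ℕ → Bool, p = pF 3 z h s1 s2 := ⟨_, rfl⟩
    obtain ⟨B2, e2, Z, g1, g2, g3, g4⟩ := hprj 3 rfl (fun q => by simp at q) p hp
    have hE' := h8 β n 9 0 s1 s2 12 6 r1 r2 P1 P2 P3 Q α hE rfl (by decide) rfl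
      (by decide) (by decide) hndr
    have pα : α.filter p = α := by rw [hp]; exact hαF 3 rfl (by decide)
    obtain ⟨q0, q3, qz, qh, -, -, -, -⟩ := pF_f (y := 3) (z := z) (h := h) (s1 := s1)
      (s2 := s2)
    have q6 : pF 3 z h s1 s2 6 = true := pF_c rfl (by decide) (by decide)
    have q12 : pF 3 z h s1 s2 12 = true := pF_c rfl (by decide) (by decide)
    rw [← hp] at q0 q6 qz qh q3 q12
    have g5 : (B0 0).filter p = 6 :: (α ++ [12, 6]) := by
      rw [hB00]
      simp only [List.filter_cons, List.filter_append, List.filter_nil, q0, q6, qz, qh, q3, q12,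
        pα, Bool.false_eq_true, if_false, if_true]
    rw [g5] at g3
    have g6 := h3 β n 12 6 r1 r2 P1 P2 P3 Q α hE' B2 e2 g1 g2 g3
    rw [g4] at g6
    have m6 : 6 ∈ B 0 := by
      rw [← List.count_pos_iff, (sloc 6 (Or.inr (Or.inr (Or.inl rfl)))).1 0 zR, if_pos rfl]
      decide
    exact la_filter (la_pre g6 (List.mem_filter.2 ⟨m6, q6⟩)) q12 q6
  -- the projection to `α`
  obtain ⟨p, hp⟩ : ∃ p : ℕ → Bool, p = pE z h s1 s2 r1 r2 := ⟨_, rfl⟩
  have hpf : ∀ c ∈ [0, 3, 6, 12, 3 * z + 1, 3 * h + 1,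
      3 * s1 + 1, 3 * s2 + 1, 3 * r1 + 1, 3 * r2 + 1, 3 * (s1 + 1) + 2, 3 * (s2 + 1) + 2,
      3 * (r1 + 1) + 2, 3 * (r2 + 1) + 2, 3 * (h + 1) + 2, 3 * (z + 1) + 2], p c = false := by
    intro c hc'
    rw [hp]
    exact pE_f hc'
  have pT : ∀ i ∈ (P1 ++ (P2 ++ P3)) ++ Q, p (3 * i + 1) = true ∧
      p (3 * (i + 1) + 2) = true := by
    intro i hi
    obtain ⟨a1, a2, a3, a4, a5, a6⟩ := hTne i hi
    rw [hp]
    exact ⟨pE_z a6 a5 a1 a2 a3 a4, pE_s a6 a5 a1 a2 a3 a4⟩
  have p2 : p 2 = true := by rw [hp]; exact pE_2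
  have p12 : p 12 = false := hpf 12 (by simp)
  have zs1 : p (3 * s1 + 1) = false := hpf _ (by simp)
  have zs2 : p (3 * s2 + 1) = false := hpf _ (by simp)
  have zr1 : p (3 * r1 + 1) = false := hpf _ (by simp)
  have zr2 : p (3 * r2 + 1) = false := hpf _ (by simp)
  have zh : p (3 * h + 1) = false := hpf _ (by simp)
  have zz : p (3 * z + 1) = false := hpf _ (by simp)
  have ts1 : p (3 * (s1 + 1) + 2) = false := hpf _ (by simp)
  have ts2 : p (3 * (s2 + 1) + 2) = false := hpf _ (by simp)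
  have tr1 : p (3 * (r1 + 1) + 2) = false := hpf _ (by simp)
  have tr2 : p (3 * (r2 + 1) + 2) = false := hpf _ (by simp)
  have th : p (3 * (h + 1) + 2) = false := hpf _ (by simp)
  have tz : p (3 * (z + 1) + 2) = false := hpf _ (by simp)
  have pα1 : ∀ a ∈ α, p a = true := by
    intro a ha
    have q1 := hcan.sf a ha
    by_cases h0 : a % 3 = 0
    · have q2 := (hcan.lc a ha h0).2
      rw [hp]
      exact pE_c h0 q2
    · obtain ⟨i, hi, rfl⟩ := hcan.ps a ha (by omega)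
      exact (pT i hi).1
  have pα : α.filter p = α := List.filter_eq_self.2 pα1
  have g0 : (B0 0).filter p = α := by
    have q0 : p 0 = false := hpf _ (by simp)
    have q3 : p 3 = false := hpf _ (by simp)
    have q6 : p 6 = false := hpf _ (by simp)
    rw [hB00]
    simp only [List.filter_cons, List.filter_append, List.filter_nil, q0, q6, zz, zh, q3, p12,
      pα, Bool.false_eq_true, if_false, List.append_nil]
  have e0 : (Bw R B0).filter p = Wm (P1 ++ (P2 ++ P3)) Q ((B0 0).filter p) := by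
    rw [hR]
    refine proj_wm p2 ⟨by rw [hB0s1]; rfl, ts1⟩
      ⟨by rw [hB0s2]; rfl, ts2⟩ ⟨?_, tr1⟩ ⟨?_, tr2⟩ ⟨?_, th⟩ ⟨?_, tz⟩ ?_
    · rw [hB0r1]
      exact filter_none (fun a ha => by rw [List.mem_singleton.1 ha]; exact p12)
    · rw [hB0r2]
      exact filter_none (fun a ha => by rw [List.mem_singleton.1 ha]; exact p12)
    · rw [hB0S h hhS]
      exact filter_none (fun a ha => by rw [List.mem_singleton.1 ha]; exact zh)
    · rw [hB0S z hzS]
      exact filter_none (fun a ha => by rw [List.mem_singleton.1 ha]; exact zz)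
    · intro i hi
      refine ⟨?_, (pT i hi).2⟩
      rw [hB0S i ((hS i).2 (Or.inr (Or.inr hi))), List.filter_cons_of_pos (pT i hi).1,
        List.filter_nil]
  have s1R : s1 + 1 ∈ R := (memR _).2 (Or.inr (Or.inl rfl))
  have s2R : s2 + 1 ∈ R := (memR _).2 (Or.inr (Or.inr (Or.inl rfl)))
  have r1R : r1 + 1 ∈ R := (memR _).2 (Or.inr (Or.inr (Or.inr (Or.inl rfl))))
  have r2R : r2 + 1 ∈ R := (memR _).2 (Or.inr (Or.inr (Or.inr (Or.inr (Or.inl rfl)))))
  have hfn : ∀ j, j + 1 ∈ R → p (3 * j + 1) = false → (B (j + 1)).filter p = [] := by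
    intro j hj hpj
    apply filter_none
    intro a ha
    rcases hbl (j + 1) hj (Nat.succ_ne_zero j) a ha with q | q
    · rw [q]
      exact p12
    · rw [q, Nat.add_sub_cancel]
      exact hpj
  have e1 : (Bw R B).filter p = Wm (P1 ++ (P2 ++ P3)) Q ((B 0).filter p) := by
    rw [hR]
    refine proj_wm p2 ⟨hfn s1 s1R zs1, ts1⟩ ⟨hfn s2 s2R zs2, ts2⟩ ⟨hfn r1 r1R zr1, tr1⟩
      ⟨hfn r2 r2R zr2, tr2⟩ ⟨hfn h (iR h hhS) zh, th⟩ ⟨hfn z (iR z hzS) zz, tz⟩ ?_
    intro i hi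
    have hiS := (hS i).2 (Or.inr (Or.inr hi))
    refine ⟨filter_single (pT i hi).1 ?_ ?_, (pT i hi).2⟩
    · intro a ha hpa
      rcases hbl (i + 1) (iR i hiS) (Nat.succ_ne_zero i) a ha with q | q
      · rw [q, p12] at hpa
        exact absurd hpa (by simp)
      · rw [q, Nat.add_sub_cancel]
    · rw [(spas i hiS).1 (i + 1) (iR i hiS), if_pos (Or.inr rfl)]
  have hperm : ((B 0).filter p).Perm α := by
    rw [List.perm_iff_count]
    intro a
    by_cases hpa : p a = true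
    · have ha12 : a ≠ 12 := by
        rintro rfl
        rw [p12] at hpa
        simp at hpa
      rw [List.count_filter hpa, hB0cnt a ha12, ← List.count_filter hpa, g0]
    · rw [List.count_eq_zero.2 (fun hm' => hpa (List.mem_filter.1 hm').2),
        List.count_eq_zero.2 (fun hm' => hpa (pα1 a hm'))]
  have hrr : RR β (Wm (P1 ++ (P2 ++ P3)) Q α) (Wm (P1 ++ (P2 ++ P3)) Q ((B 0).filter p)) := by
    have := RR.filter p hu
    rw [e0, e1, g0] at this
    exact this
  obtain ⟨⟨e', he', l1, hl1⟩, f', hf', l2, hl2⟩ :=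
    h7 β n 9 0 s1 s2 P1 P2 P3 Q α hE ((B 0).filter p) hperm hrr
  obtain ⟨-, f0, hf0, l0, hl0⟩ :=
    h7 β n 9 0 s1 s2 P1 P2 P3 Q α hE α (List.Perm.refl _) (RR.refl _)
  have hff0 : f0 = f := by
    rw [hl] at hl0
    have := (List.append_inj' hl0 rfl).2
    rw [List.cons.injEq] at this
    omega
  rw [hff0] at hf0
  have hPT : ∀ i ∈ P1 ++ (P2 ++ P3), i ∈ (P1 ++ (P2 ++ P3)) ++ Q := fun i hi =>
    List.mem_append_left _ hi
  have hPS : ∀ i ∈ P1 ++ (P2 ++ P3), i ∈ P1 ++ (P2 ++ (P3 ++ h :: (Q ++ [z]))) := fun i hi =>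
    (hS i).2 (Or.inr (Or.inr (hPT i hi)))
  have hQT : ∀ i ∈ Q, i ∈ (P1 ++ (P2 ++ P3)) ++ Q := fun i hi => List.mem_append_right _ hi
  have hfe : f ≠ e' := by
    rintro rfl
    exact (List.nodup_append.1 hnPQ).2.2 f hf0 f he' rfl
  have hff : f' = f := by
    by_contra hne
    have q1 : Bfr (B0 0) (3 * f' + 1) (3 * f + 1) := by
      have q2 : 3 * f' + 1 ∈ l := by
        have q3 := memT f' (hPT f' hf')
        rw [hl, List.mem_append, List.mem_singleton] at q3
        rcases q3 with q3 | q3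
        · exact q3
        · omega
      obtain ⟨X, Y, hXY⟩ := List.append_of_mem q2
      refine ⟨6 :: 3 :: (3 * z + 1) :: 0 :: X, Y, [3, 12, 6, 3 * h + 1, 0], ?_⟩
      rw [hB00, hl, hXY]
      simp
    have q2 := ord β hc.i3 R B0 B hRnd hB0f (fun r _ => hBs r) hu 0 (f' + 1) (f + 1)
      (3 * f' + 1) (3 * f + 1) zR (iR f' (hPS f' hf')) (iR f (hPS f hf0)) (by omega) (by omega)
      (by omega) (by omega) (by omega) (by omega) (hpas f' (hPS f' hf')) (hpas f (hPS f hf0))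
      (spas f' (hPS f' hf')).1 (spas f (hPS f hf0)).1
      ⟨fun _ _ hs3 => hc.na (ia_of hc.s2 hs3),
        fun hn _ => absurd (hpl f' (List.mem_append_left _ hf')) hn,
        fun _ hn => absurd (hpl f (List.mem_append_left _ hf0)) hn,
        fun hn _ => absurd (hpl f' (List.mem_append_left _ hf')) hn⟩ q1
    obtain ⟨A, C, D, hACD⟩ := q2
    have q3 : (B 0).filter p = (A.filter p ++ (3 * f' + 1) :: C.filter p) ++ (3 * f + 1) ::
        D.filter p := by
      rw [hACD, List.filter_append, List.filter_cons_of_pos (pT f' (hPT f' hf')).1,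
        List.filter_append, List.filter_cons_of_pos (pT f (hPT f hf0)).1]
      simp
    have q4 : ((B 0).filter p).count (3 * f' + 1) = 1 := by
      rw [hperm.count_eq, hα2 f' (hPT f' hf')]
    have q5 : 3 * f' + 1 ∉ D.filter p := by
      rw [q3, List.count_append, List.count_append, List.count_cons_self] at q4
      rw [List.count_cons_of_ne (by omega)] at q4
      rw [← List.count_eq_zero]
      omega
    have q6 : LA (3 * f' + 1) (3 * f + 1) ((B 0).filter p) := ⟨_, _, q3, q5⟩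
    rw [hl2] at q6
    exact la_last q6 (by omega)
  rw [hff] at hl2
  obtain ⟨-, -, -, -, fh, fz⟩ := hTne f (hPT f hf0)
  obtain ⟨-, -, -, -, eh, ez⟩ := hTne e' (hQT e' he')
  have m3 : 3 ∈ B 0 := by
    rw [← List.count_pos_iff, (sloc 3 (Or.inr (Or.inl rfl))).1 0 zR, if_pos rfl]
    omega
  have m0 : 0 ∈ B 0 := by
    rw [← List.count_pos_iff, (sloc 0 (Or.inl rfl)).1 0 zR, if_pos rfl]
    omega
  have cS : ∀ i ∈ P1 ++ (P2 ++ (P3 ++ h :: (Q ++ [z]))), (B 0).count (3 * i + 1) = 1 := by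
    intro i hi
    rw [(spas i hi).1 0 zR, if_pos (Or.inl rfl)]
  have mS : ∀ i ∈ P1 ++ (P2 ++ (P3 ++ h :: (Q ++ [z]))), 3 * i + 1 ∈ B 0 := by
    intro i hi
    rw [← List.count_pos_iff, cS i hi]
    omega
  have L3 : LA 6 (3 * h + 1) (B 0) := (rga 6 h (Or.inr (Or.inr rfl)) (by simp)).1
    ⟨6 :: 3 :: (3 * z + 1) :: 0 :: (α ++ [3, 12, 6]), [0], by rw [hB00]; simp, by simp⟩
  have L4 : LA (3 * h + 1) 0 (B 0) := by
    refine la_of_not (fun hh => ?_) (mS h hhS)
    have q1 := (rga 0 h (Or.inl rfl) (by simp)).2 hh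
    have q2 : B0 0 = (6 :: 3 :: (3 * z + 1) :: 0 :: (α ++ [3, 12, 6])) ++ (3 * h + 1) :: [0] := by
      rw [hB00]; simp
    rw [q2] at q1
    exact la_spec q1 (by simp) (by simp)
  have L5 : LA (3 * f + 1) 3 (B 0) := by
    refine la_of_not (fun hh => ?_) (mS f (hPS f hf0))
    have q1 := (rga 3 f (Or.inr (Or.inl rfl)) (List.mem_append_left _ hf0)).2 hh
    have q2 : B0 0 = (6 :: 3 :: (3 * z + 1) :: 0 :: l) ++ (3 * f + 1) ::
        [3, 12, 6, 3 * h + 1, 0] := by
      rw [hB00, hl]; simp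
    rw [q2] at q1
    refine la_spec q1 ?_ (by simp)
    simp only [List.mem_cons, List.not_mem_nil, or_false, not_or]
    omega
  have L6 : ∀ d ∈ α, d ≠ 3 * f + 1 → LA d (3 * f + 1) (B 0) := by
    intro d hd _
    refine la_filter (p := p) ?_ (pα1 d hd) (pT f (hPT f hf0)).1
    exact ⟨l2, [], hl2, by simp⟩
  have hzQ : z ∈ Q ++ [z] := by simp
  have F1 : FA 6 (3 * z + 1) (B 0) := (rgd 6 z (Or.inr (Or.inr rfl)) hzQ).1
    ⟨[], 3 :: (3 * z + 1) :: 0 :: (α ++ [3, 12, 6, 3 * h + 1, 0]), by rw [hB00]; rfl, by simp⟩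
  have F2 : FA 3 (3 * z + 1) (B 0) := (rgd 3 z (Or.inr (Or.inl rfl)) hzQ).1
    ⟨[6], (3 * z + 1) :: 0 :: (α ++ [3, 12, 6, 3 * h + 1, 0]), by rw [hB00]; rfl, by
      rw [List.mem_singleton]; omega⟩
  have F3 : FA (3 * z + 1) 0 (B 0) := by
    refine fa_of_not (fun hh => ?_) m0
    have q1 := (rgd 0 z (Or.inl rfl) hzQ).2 hh
    have q2 : B0 0 = [6, 3] ++ (3 * z + 1) :: (0 :: (α ++ [3, 12, 6, 3 * h + 1, 0])) := by
      rw [hB00]; rfl
    rw [q2] at q1
    have q3 := fa_mem q1 (by omega)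
    simp at q3
  have F4 : FA 0 (3 * e' + 1) (B 0) := (rgd 0 e' (Or.inl rfl) (List.mem_append_left _ he')).1
    ⟨[6, 3, 3 * z + 1], α ++ [3, 12, 6, 3 * h + 1, 0], by rw [hB00]; rfl, by
      simp only [List.mem_cons, List.not_mem_nil, or_false, not_or]; omega⟩
  obtain ⟨A, hA⟩ := core (B 0) α (3 * h + 1) (3 * z + 1) (3 * f + 1) (3 * e' + 1)
    (by omega) (by omega) (by omega) (by omega) (by omega) (by omega) (by omega) (by omega)
    (by omega) (by omega) hK x1 (by rw [(sloc 6 (Or.inr (Or.inr (Or.inl rfl)))).1 0 zR, if_pos rfl])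
    (by rw [(sloc 3 (Or.inr (Or.inl rfl))).1 0 zR, if_pos rfl])
    (by rw [(sloc 0 (Or.inl rfl)).1 0 zR, if_pos rfl]) (cS h hhS) (cS z hzS)
    (cS e' ((hS e').2 (Or.inr (Or.inr (hQT e' he'))))) L1 L2 L3 L4 L5 L6 F1 F2 F3 F4
  refine ⟨B, hBs, by rw [hw, hR]; rfl, ?_, ?_, x1, ?_, ?_, ⟨A, hA⟩, ?_⟩
  · intro i hi
    refine ⟨cS i hi, by rw [(spas i hi).1 (i + 1) (iR i hi), if_pos (Or.inr rfl)], ?_⟩
    rw [hw]
    exact count_pas hRnd zR (iR i hi) (by omega) (by omega) (spas i hi).1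
  · intro r hr hr0 a ha
    refine hbl r ?_ hr0 a ha
    rw [hR]
    exact hr
  · intro i hi
    apply hBi
    rw [List.mem_append, List.mem_singleton] at hi
    rcases hi with hi | hi
    · exact Or.inr (Or.inr (Or.inr hi))
    · exact Or.inr (Or.inl hi)
  · intro a ha ha12
    rcases hkind a (hBs 0 a ha) with q | ⟨i, hi, rfl⟩ | hl' | hno
    · exact absurd q ha12
    · exact Or.inl ⟨i, hi, rfl⟩
    · right
      refine ⟨by rw [(sloc a hl').1 0 zR, if_pos rfl], ?_⟩
      rw [hw]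
      exact count_loc hRnd zR (hBs 0 a ha) (sloc a hl').1
    · exact absurd ha ((k1 a hno).1 0 zR)
  · intro i hi
    have hiS : i ∈ P1 ++ (P2 ++ (P3 ++ h :: (Q ++ [z]))) := by
      rw [hS]
      rw [List.mem_append, List.mem_singleton] at hi
      rcases hi with hi | hi
      · exact Or.inr (Or.inr (List.mem_append_right _ hi))
      · exact Or.inr (Or.inl hi)
    have hih : i ≠ h ∧ i ≠ f := by
      rw [List.mem_append, List.mem_singleton] at hi
      rcases hi with hi | rfl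
      · refine ⟨(hTne i (hQT i hi)).2.2.2.2.1, ?_⟩
        rintro rfl
        exact (List.nodup_append.1 hnPQ).2.2 i hf0 i hi rfl
      · exact ⟨fun q => hhz q.symm, fun q => fz q.symm⟩
    have hiA : 3 * i + 1 ∈ A := by
      have q1 := mS i hiS
      rw [hA] at q1
      simp only [List.mem_append, List.mem_cons, List.not_mem_nil, or_false] at q1
      rcases q1 with q1 | q1 | q1 | q1 | q1 | q1 | q1
      · exact q1
      · omega
      · omega
      · omega
      · omega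
      · omega
      · omega
    obtain ⟨X, Y, hXY⟩ := List.append_of_mem hiA
    have q1 : FA 3 (3 * i + 1) (B 0) := (rgd 3 i (Or.inr (Or.inl rfl)) hi).1
      ⟨[6], (3 * z + 1) :: 0 :: (α ++ [3, 12, 6, 3 * h + 1, 0]), by rw [hB00]; rfl, by
        rw [List.mem_singleton]; omega⟩
    have q2 : FA 6 (3 * i + 1) (B 0) := (rgd 6 i (Or.inr (Or.inr rfl)) hi).1
      ⟨[], 3 :: (3 * z + 1) :: 0 :: (α ++ [3, 12, 6, 3 * h + 1, 0]), by rw [hB00]; rfl, by simp⟩
    have q3 : B 0 = X ++ (3 * i + 1) :: (Y ++ [3 * f + 1, 3, 12, 6, 3 * h + 1, 0]) := by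
      rw [hA, hXY]
      simp
    rw [q3] at q1 q2
    have q4 := fa_mem q1 (by omega)
    have q5 := fa_mem q2 (by omega)
    rw [q3]
    constructor
    · obtain ⟨X1, X2, hX⟩ := List.append_of_mem q4
      refine ⟨X1, X2 ++ (3 * i + 1) :: (Y ++ [3 * f + 1]), [12, 6, 3 * h + 1, 0], ?_, ?_⟩
      · rw [hX]
        simp
      · simp
    · obtain ⟨X1, X2, hX⟩ := List.append_of_mem q5
      refine ⟨X1, X2 ++ (3 * i + 1) :: (Y ++ [3 * f + 1, 3, 12]), [3 * h + 1, 0], ?_, ?_⟩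
      · rw [hX]
        simp
      · simp

end Pool.Agent.MVD.H62
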