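import Pool.Agent.MVD.StmtsLoc

/-!
# Squad MVD, row ESC: general lemmas
-/

set_option autoImplicit false

namespace Pool.Agent.MVD.H62.Esc

open Pool.Agent.Helper14_MV Pool.Agent.Helper2_MV Pool.Agent.MVD

/-! ### the order of letters in a list -/

theorem exists_last {b : ℕ} : ∀ {K : List ℕ}, b ∈ K → ∃ X Y, K = X ++ b :: Y ∧ b ∉ Y := by
  intro K
  induction K with
  | nil => intro h; simp at h
  | cons a K ih =>
    intro h
    by_cases hb : b ∈ K
    · obtain ⟨X, Y, h1, h2⟩ := ih hb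
      exact ⟨a :: X, Y, by rw [h1]; rfl, h2⟩
    · rw [List.mem_cons] at h
      rcases h with h | h
      · exact ⟨[], K, by rw [h]; rfl, hb⟩
      · exact absurd h hb

theorem la_spec {a b : ℕ} {X Y : List ℕ} (h : LA a b (X ++ b :: Y)) (hb : b ∉ Y) : a ∉ Y := by
  obtain ⟨A, C, h1, h2⟩ := h
  rw [List.append_eq_append_iff] at h1
  rcases h1 with ⟨D, h3, h4⟩ | ⟨D, h3, h4⟩
  · cases D with
    | nil =>
      rw [List.nil_append, List.cons.injEq] at h4
      rw [h4.2]
      exact h2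
    | cons d D =>
      rw [List.cons_append, List.cons.injEq] at h4
      exfalso
      apply hb
      rw [h4.2]
      simp
  · cases D with
    | nil =>
      rw [List.nil_append, List.cons.injEq] at h4
      rw [← h4.2]
      exact h2
    | cons d D =>
      rw [List.cons_append, List.cons.injEq] at h4
      intro ha
      apply h2
      rw [h4.2]
      simp [ha]

theorem la_pre {a b : ℕ} {Z K : List ℕ} (h : LA a b (Z ++ K)) (hb : b ∈ K) : LA a b K := by
  obtain ⟨X, Y, h1, h2⟩ := exists_last hb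
  refine ⟨X, Y, h1, ?_⟩
  rw [h1, ← List.append_assoc] at h
  exact la_spec h h2

theorem la_filter {a b : ℕ} {K : List ℕ} {p : ℕ → Bool} (h : LA a b (K.filter p))
    (ha : p a = true) (hb : p b = true) : LA a b K := by
  have h0 : b ∈ K := by
    obtain ⟨A, C, h1, -⟩ := h
    have : b ∈ K.filter p := by rw [h1]; simp
    exact (List.mem_filter.1 this).1
  obtain ⟨X, Y, h1, h2⟩ := exists_last h0
  refine ⟨X, Y, h1, ?_⟩
  rw [h1, List.filter_append, List.filter_cons_of_pos hb] at h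
  have h3 := la_spec h (fun h4 => h2 (List.mem_filter.1 h4).1)
  intro h4
  exact h3 (List.mem_filter.2 ⟨h4, ha⟩)

theorem la_of_not {a b : ℕ} {K : List ℕ} (h : ¬ LA a b K) (hb : b ∈ K) : LA b a K := by
  obtain ⟨X, Y, h1, h2⟩ := exists_last hb
  have ha : a ∈ Y := by
    by_contra hn
    exact h ⟨X, Y, h1, hn⟩
  obtain ⟨Y1, Y2, h3⟩ := List.append_of_mem ha
  refine ⟨X ++ b :: Y1, Y2, by rw [h1, h3]; simp, ?_⟩
  intro h4
  apply h2
  rw [h3]
  simp [h4]

theorem fa_mem {a b : ℕ} {X Y : List ℕ} (h : FA a b (X ++ b :: Y)) (hab : a ≠ b) : a ∈ X := by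
  obtain ⟨A, C, h1, h2⟩ := h
  rw [List.append_eq_append_iff] at h1
  rcases h1 with ⟨D, h3, h4⟩ | ⟨D, h3, h4⟩
  · cases D with
    | nil =>
      rw [List.nil_append, List.cons.injEq] at h4
      exact absurd h4.1.symm hab
    | cons d D =>
      rw [List.cons_append, List.cons.injEq] at h4
      exfalso
      apply h2
      rw [h3, ← h4.1]
      simp
  · cases D with
    | nil =>
      rw [List.nil_append, List.cons.injEq] at h4
      exact absurd h4.1 hab
    | cons d D =>
      rw [List.cons_append, List.cons.injEq] at h4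
      rw [h3, ← h4.1]
      simp

theorem exists_first {b : ℕ} : ∀ {K : List ℕ}, b ∈ K → ∃ X Y, K = X ++ b :: Y ∧ b ∉ X := by
  intro K
  induction K with
  | nil => intro h; simp at h
  | cons a K ih =>
    intro h
    by_cases hb : a = b
    · exact ⟨[], K, by rw [hb]; rfl, by simp⟩
    · rw [List.mem_cons] at h
      rcases h with h | h
      · exact absurd h.symm hb
      · obtain ⟨X, Y, h1, h2⟩ := ih h
        refine ⟨a :: X, Y, by rw [h1]; rfl, ?_⟩
        rw [List.mem_cons, not_or]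
        exact ⟨fun h => hb h.symm, h2⟩

theorem fa_of_not {a b : ℕ} {K : List ℕ} (h : ¬ FA a b K) (ha : a ∈ K) : FA b a K := by
  obtain ⟨X, Y, h1, h2⟩ := exists_first ha
  have hb : b ∈ X := by
    by_contra hn
    exact h ⟨X, Y, h1, hn⟩
  obtain ⟨X1, X2, h3⟩ := List.append_of_mem hb
  refine ⟨X1, X2 ++ a :: Y, by rw [h1, h3]; simp, ?_⟩
  intro h4
  apply h2
  rw [h3]
  simp [h4]

/-- the first `a` is before `b`, and there is only one `a` in `K` -/
theorem fa_la {a b : ℕ} {K W : List ℕ} (h : FA a b (K ++ W)) (hab : a ≠ b) (hb : b ∈ K)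
    (hc : K.count a = 1) : LA a b K := by
  obtain ⟨X, Y, h1⟩ := List.append_of_mem hb
  rw [h1, List.append_assoc, List.cons_append] at h
  have h2 := fa_mem h hab
  refine ⟨X, Y, h1, ?_⟩
  rw [h1, List.count_append, List.count_cons] at hc
  have h3 := List.count_pos_iff.2 h2
  intro h4
  have h5 := List.count_pos_iff.2 h4
  omega

/-- the last letter -/
theorem peel {K : List ℕ} {t : ℕ} (hne : K ≠ [])
    (h : ∀ d ∈ K, d ≠ t → ∃ b, b ≠ d ∧ LA d b K) : ∃ K', K = K' ++ [t] := by
  rcases List.eq_nil_or_concat K with h1 | ⟨K', d, h1⟩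
  · exact absurd h1 hne
  · rw [List.concat_eq_append] at h1
    by_cases hd : d = t
    · exact ⟨K', by rw [h1, hd]⟩
    · obtain ⟨b, hb, A, C, h2, h3⟩ := h d (by rw [h1]; simp) hd
      exfalso
      rcases List.eq_nil_or_concat C with h4 | ⟨C', c, h4⟩
      · rw [h4, h1] at h2
        have := (List.append_inj' h2 rfl).2
        rw [List.cons.injEq] at this
        exact hb this.1.symm
      · rw [List.concat_eq_append] at h4
        rw [h4, h1] at h2
        have h5 : K' ++ [d] = (A ++ b :: C') ++ [c] := by rw [h2]; simp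
        have h6 := (List.append_inj' h5 rfl).2
        rw [List.cons.injEq] at h6
        apply h3
        rw [h4, h6.1]
        simp

theorem la_peel {a b d : ℕ} {K : List ℕ} (h : LA a b (K ++ [d])) (hbd : b ≠ d) : LA a b K := by
  obtain ⟨A, C, h1, h2⟩ := h
  rcases List.eq_nil_or_concat C with h4 | ⟨C', c, h4⟩
  · rw [h4] at h1
    have := (List.append_inj' h1 rfl).2
    rw [List.cons.injEq] at this
    exact absurd this.1.symm hbd
  · rw [List.concat_eq_append] at h4
    rw [h4] at h1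
    have h5 : K ++ [d] = (A ++ b :: C') ++ [c] := by rw [h1]; simp
    have h6 := (List.append_inj' h5 rfl).1
    refine ⟨A, C', h6, ?_⟩
    intro h7
    apply h2
    rw [h4]
    simp [h7]

theorem cnt1 (K : List ℕ) (t c : ℕ) :
    (K ++ [t]).count c = K.count c + if c = t then 1 else 0 := by
  rw [List.count_append]
  by_cases h : c = t
  · rw [if_pos h, h, List.count_cons_self, List.count_nil]
  · rw [if_neg h, List.count_eq_zero.2 (by simpa using h : c ∉ [t])]

/-- THE ORDER of the main block -/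
theorem core (K α : List ℕ) (zh zz zf ze : ℕ)
    (d1 : zh ≠ zz) (d2 : zh ≠ zf) (d3 : zh ≠ ze) (d4 : zz ≠ zf) (d5 : zz ≠ ze) (d6 : zf ≠ ze)
    (m1 : zh % 3 = 1) (m2 : zz % 3 = 1) (m3 : zf % 3 = 1) (m4 : ze % 3 = 1)
    (hK : ∀ d ∈ K, d = 12 ∨ d = 6 ∨ d = 3 ∨ d = 0 ∨ d = zh ∨ d = zz ∨ d ∈ α)
    (c12 : K.count 12 = 1) (c6 : K.count 6 = 2) (c3 : K.count 3 = 2) (c0 : K.count 0 = 2)
    (ch : K.count zh = 1) (cz : K.count zz = 1) (ce : K.count ze = 1)
    (L1 : LA 3 12 K) (L2 : LA 12 6 K) (L3 : LA 6 zh K) (L4 : LA zh 0 K) (L5 : LA zf 3 K)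
    (L6 : ∀ d ∈ α, d ≠ zf → LA d zf K)
    (F1 : FA 6 zz K) (F2 : FA 3 zz K) (F3 : FA zz 0 K) (F4 : FA 0 ze K) :
    ∃ A, K = A ++ [zf, 3, 12, 6, zh, 0] := by
  have hm : ∀ {c : ℕ}, 0 < K.count c → c ∈ K := fun h => List.count_pos_iff.1 h
  -- step 0
  obtain ⟨K1, e1⟩ : ∃ K', K = K' ++ [0] := by
    apply peel
    · intro h
      rw [h] at c0
      simp at c0
    · intro d hd hd0
      rcases hK d hd with h | h | h | h | h | h | h
      · exact ⟨6, by omega, h ▸ L2⟩
      · exact ⟨zh, by omega, h ▸ L3⟩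
      · exact ⟨12, by omega, h ▸ L1⟩
      · exact absurd h hd0
      · exact ⟨0, by omega, h ▸ L4⟩
      · refine ⟨0, by omega, ?_⟩
        rw [h]
        exact fa_la (W := []) (by rw [List.append_nil]; exact F3) (by omega) (hm (by omega)) cz
      · by_cases hf : d = zf
        · exact ⟨3, by omega, hf ▸ L5⟩
        · exact ⟨zf, fun h' => hf h'.symm, L6 d h hf⟩
  subst e1
  have q1 := cnt1 K1 0
  have k12 := q1 12
  have k6 := q1 6
  have k3 := q1 3
  have k0 := q1 0
  have kh := q1 zh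
  have kz := q1 zz
  have ke := q1 ze
  rw [if_neg (by omega)] at k12 k6 k3 kh kz ke
  rw [if_pos rfl] at k0
  have M1 : LA 3 12 K1 := la_peel L1 (by omega)
  have M2 : LA 12 6 K1 := la_peel L2 (by omega)
  have M3 : LA 6 zh K1 := la_peel L3 (by omega)
  have M5 : LA zf 3 K1 := la_peel L5 (by omega)
  have M6 : ∀ d ∈ α, d ≠ zf → LA d zf K1 := fun d hd hd' => la_peel (L6 d hd hd') (by omega)
  have M7 : LA zz 0 K1 := fa_la F3 (by omega) (List.count_pos_iff.1 (by omega)) (by omega)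
  have M8 : LA 0 ze K1 := fa_la F4 (by omega) (List.count_pos_iff.1 (by omega)) (by omega)
  have hK1 : ∀ d ∈ K1, d = 12 ∨ d = 6 ∨ d = 3 ∨ d = 0 ∨ d = zh ∨ d = zz ∨ d ∈ α :=
    fun d hd => hK d (by simp [hd])
  -- step 1
  obtain ⟨K2, e2⟩ : ∃ K', K1 = K' ++ [zh] := by
    apply peel
    · intro h
      have hx : K1.count 0 = 0 := by rw [h]; rfl
      omega
    · intro d hd hd0
      rcases hK1 d hd with h | h | h | h | h | h | h
      · exact ⟨6, by omega, h ▸ M2⟩
      · exact ⟨zh, by omega, h ▸ M3⟩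
      · exact ⟨12, by omega, h ▸ M1⟩
      · exact ⟨ze, by omega, h ▸ M8⟩
      · exact absurd h hd0
      · exact ⟨0, by omega, h ▸ M7⟩
      · by_cases hf : d = zf
        · exact ⟨3, by omega, hf ▸ M5⟩
        · exact ⟨zf, fun h' => hf h'.symm, M6 d h hf⟩
  subst e2
  have q2 := cnt1 K2 zh
  have l12 := q2 12
  have l6 := q2 6
  have l3 := q2 3
  have l0 := q2 0
  have lh := q2 zh
  have lz := q2 zz
  have le := q2 ze
  rw [if_neg (by omega)] at l12 l6 l3 l0 lz le
  rw [if_pos rfl] at lh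
  have N1 : LA 3 12 K2 := la_peel M1 (by omega)
  have N2 : LA 12 6 K2 := la_peel M2 (by omega)
  have N5 : LA zf 3 K2 := la_peel M5 (by omega)
  have N6 : ∀ d ∈ α, d ≠ zf → LA d zf K2 := fun d hd hd' => la_peel (M6 d hd hd') (by omega)
  have N7 : LA zz 0 K2 := la_peel M7 (by omega)
  have N8 : LA 0 ze K2 := la_peel M8 (by omega)
  have hK2 : ∀ d ∈ K2, d = 12 ∨ d = 6 ∨ d = 3 ∨ d = 0 ∨ d = zh ∨ d = zz ∨ d ∈ α :=
    fun d hd => hK1 d (by simp [hd])
  have nh : zh ∉ K2 := by
    rw [← List.count_eq_zero]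
    omega
  -- step 2
  obtain ⟨K3, e3⟩ : ∃ K', K2 = K' ++ [6] := by
    apply peel
    · intro h
      have hx : K2.count 6 = 0 := by rw [h]; rfl
      omega
    · intro d hd hd0
      rcases hK2 d hd with h | h | h | h | h | h | h
      · exact ⟨6, by omega, h ▸ N2⟩
      · exact absurd h hd0
      · exact ⟨12, by omega, h ▸ N1⟩
      · exact ⟨ze, by omega, h ▸ N8⟩
      · exact absurd (h ▸ hd) nh
      · exact ⟨0, by omega, h ▸ N7⟩
      · by_cases hf : d = zf
        · exact ⟨3, by omega, hf ▸ N5⟩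
        · exact ⟨zf, fun h' => hf h'.symm, N6 d h hf⟩
  subst e3
  have q3 := cnt1 K3 6
  have r12 := q3 12
  have r6 := q3 6
  have r3 := q3 3
  have r0 := q3 0
  have rz := q3 zz
  have re := q3 ze
  rw [if_neg (by omega)] at r12 r3 r0 rz re
  rw [if_pos rfl] at r6
  have O1 : LA 3 12 K3 := la_peel N1 (by omega)
  have O5 : LA zf 3 K3 := la_peel N5 (by omega)
  have O6 : ∀ d ∈ α, d ≠ zf → LA d zf K3 := fun d hd hd' => la_peel (N6 d hd hd') (by omega)
  have O7 : LA zz 0 K3 := la_peel N7 (by omega)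
  have O8 : LA 0 ze K3 := la_peel N8 (by omega)
  have O9 : LA 6 zz K3 := by
    refine fa_la (W := [6] ++ ([zh] ++ [0])) ?_ (by omega) (List.count_pos_iff.1 (by omega))
      (by omega)
    rw [← List.append_assoc, ← List.append_assoc]
    exact F1
  have hK3 : ∀ d ∈ K3, d = 12 ∨ d = 6 ∨ d = 3 ∨ d = 0 ∨ d = zh ∨ d = zz ∨ d ∈ α :=
    fun d hd => hK2 d (by simp [hd])
  -- step 3
  obtain ⟨K4, e4⟩ : ∃ K', K3 = K' ++ [12] := by
    apply peel
    · intro h
      have hx : K3.count 12 = 0 := by rw [h]; rfl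
      omega
    · intro d hd hd0
      rcases hK3 d hd with h | h | h | h | h | h | h
      · exact absurd h hd0
      · exact ⟨zz, by omega, h ▸ O9⟩
      · exact ⟨12, by omega, h ▸ O1⟩
      · exact ⟨ze, by omega, h ▸ O8⟩
      · exact absurd (by rw [← h]; simp [hd]) nh
      · exact ⟨0, by omega, h ▸ O7⟩
      · by_cases hf : d = zf
        · exact ⟨3, by omega, hf ▸ O5⟩
        · exact ⟨zf, fun h' => hf h'.symm, O6 d h hf⟩
  subst e4
  have q4 := cnt1 K4 12
  have s12 := q4 12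
  have s6 := q4 6
  have s3 := q4 3
  have s0 := q4 0
  have sz := q4 zz
  have se := q4 ze
  rw [if_neg (by omega)] at s6 s3 s0 sz se
  rw [if_pos rfl] at s12
  have T5 : LA zf 3 K4 := la_peel O5 (by omega)
  have T6 : ∀ d ∈ α, d ≠ zf → LA d zf K4 := fun d hd hd' => la_peel (O6 d hd hd') (by omega)
  have T7 : LA zz 0 K4 := la_peel O7 (by omega)
  have T8 : LA 0 ze K4 := la_peel O8 (by omega)
  have T9 : LA 6 zz K4 := la_peel O9 (by omega)
  have n12 : 12 ∉ K4 := by
    rw [← List.count_eq_zero]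
    omega
  -- step 4
  obtain ⟨K5, e5⟩ : ∃ K', K4 = K' ++ [3] := by
    apply peel
    · intro h
      have hx : K4.count 3 = 0 := by rw [h]; rfl
      omega
    · intro d hd hd0
      rcases hK3 d (by simp [hd]) with h | h | h | h | h | h | h
      · exact absurd (h ▸ hd) n12
      · exact ⟨zz, by omega, h ▸ T9⟩
      · exact absurd h hd0
      · exact ⟨ze, by omega, h ▸ T8⟩
      · exact absurd (by rw [← h]; simp [hd]) nh
      · exact ⟨0, by omega, h ▸ T7⟩
      · by_cases hf : d = zf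
        · exact ⟨3, by omega, hf ▸ T5⟩
        · exact ⟨zf, fun h' => hf h'.symm, T6 d h hf⟩
  subst e5
  have q5 := cnt1 K5 3
  have t6 := q5 6
  have t3 := q5 3
  have t0 := q5 0
  have tz := q5 zz
  have te := q5 ze
  rw [if_neg (by omega)] at t6 t0 tz te
  rw [if_pos rfl] at t3
  have V6 : ∀ d ∈ α, d ≠ zf → LA d zf K5 := fun d hd hd' => la_peel (T6 d hd hd') (by omega)
  have V7 : LA zz 0 K5 := la_peel T7 (by omega)
  have V8 : LA 0 ze K5 := la_peel T8 (by omega)
  have V9 : LA 6 zz K5 := la_peel T9 (by omega)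
  have V10 : LA 3 zz K5 := by
    refine fa_la (W := [3] ++ ([12] ++ ([6] ++ ([zh] ++ [0])))) ?_ (by omega)
      (List.count_pos_iff.1 (by omega)) (by omega)
    rw [← List.append_assoc, ← List.append_assoc, ← List.append_assoc, ← List.append_assoc]
    exact F2
  -- step 5
  obtain ⟨A, e6⟩ : ∃ K', K5 = K' ++ [zf] := by
    apply peel
    · intro h
      have hx : K5.count 6 = 0 := by rw [h]; rfl
      omega
    · intro d hd hd0
      rcases hK3 d (by simp [hd]) with h | h | h | h | h | h | h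
      · exact absurd (by rw [← h]; simp [hd]) n12
      · exact ⟨zz, by omega, h ▸ V9⟩
      · exact ⟨zz, by omega, h ▸ V10⟩
      · exact ⟨ze, by omega, h ▸ V8⟩
      · exact absurd (by rw [← h]; simp [hd]) nh
      · exact ⟨0, by omega, h ▸ V7⟩
      · exact ⟨zf, fun h' => hd0 h'.symm, V6 d h hd0⟩
  refine ⟨A, ?_⟩
  rw [e6]
  simp

end Pool.Agent.MVD.H62.Esc
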