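import Pool.Agent.Helper62_MVD.EscA

/-!
# Squad MVD, row ESC: labels, blocks, projections
-/

set_option autoImplicit false

namespace Pool.Agent.MVD.H62.Esc

open Pool.Agent.Helper14_MV Pool.Agent.Helper2_MV Pool.Agent.MVD

/-! ### blocks -/

theorem bw_append (R1 R2 : List ℕ) (B : ℕ → List ℕ) : Bw (R1 ++ R2) B = Bw R1 B ++ Bw R2 B := by
  unfold Bw
  rw [List.flatMap_append]

theorem bw_cons (r : ℕ) (R : List ℕ) (B : ℕ → List ℕ) :
    Bw (r :: R) B = B r ++ ([3 * r + 2] ++ Bw R B) := by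
  simp [Bw]

theorem bw_filter (R : List ℕ) (B : ℕ → List ℕ) (p : ℕ → Bool) :
    (Bw R B).filter p = R.flatMap (fun r => (B r).filter p ++ [3 * r + 2].filter p) := by
  induction R with
  | nil => rfl
  | cons r R ih =>
    rw [bw_cons, List.filter_append, List.filter_append, ih, List.flatMap_cons,
      List.append_assoc]

theorem bw_filter_ns (R : List ℕ) (B : ℕ → List ℕ) (p : ℕ → Bool)
    (h : ∀ r ∈ R, p (3 * r + 2) = true) :
    (Bw R B).filter p = Bw R (fun r => (B r).filter p) := by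
  rw [bw_filter]
  unfold Bw
  apply List.flatMap_congr
  intro r hr
  rw [List.filter_cons_of_pos (h r hr), List.filter_nil]

theorem bw_congr {R : List ℕ} {B B' : ℕ → List ℕ} (h : ∀ r ∈ R, B r = B' r) :
    Bw R B = Bw R B' := by
  unfold Bw
  apply List.flatMap_congr
  intro r hr
  rw [h r hr]

theorem count_bw (R : List ℕ) (B : ℕ → List ℕ) {c : ℕ} (hc : c % 3 ≠ 2) :
    (Bw R B).count c = (R.map (fun q => (B q).count c)).sum := by
  induction R with
  | nil => rfl
  | cons r R ih =>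
    rw [bw_cons, List.count_append, List.count_append, ih, List.map_cons, List.sum_cons]
    have : [3 * r + 2].count c = 0 := by
      rw [List.count_eq_zero, List.mem_singleton]
      omega
    rw [this, Nat.zero_add]

theorem sum_two {a b : ℕ} (hab : a ≠ b) (R : List ℕ) :
    (R.map (fun q => if q = a ∨ q = b then 1 else 0)).sum = R.count a + R.count b := by
  induction R with
  | nil => rfl
  | cons r R ih =>
    rw [List.map_cons, List.sum_cons, ih, List.count_cons, List.count_cons]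
    by_cases h1 : r = a
    · have h2 : ¬ r = b := fun h => hab (h1.symm.trans h)
      simp [h1, hab]
      omega
    · by_cases h2 : r = b
      · simp [h2, hab.symm]
        omega
      · simp [h1, h2]

theorem sum_one {a k : ℕ} (R : List ℕ) :
    (R.map (fun q => if q = a then k else 0)).sum = k * R.count a := by
  induction R with
  | nil => rfl
  | cons r R ih =>
    rw [List.map_cons, List.sum_cons, ih, List.count_cons]
    by_cases h1 : r = a
    · simp [h1, Nat.mul_add]
      omega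
    · simp [h1]

theorem count_pas {R : List ℕ} {B : ℕ → List ℕ} {c a b : ℕ} (hR : R.Nodup) (ha : a ∈ R)
    (hb : b ∈ R) (hab : a ≠ b) (hc : c % 3 ≠ 2)
    (h : ∀ q ∈ R, (B q).count c = if q = a ∨ q = b then 1 else 0) : (Bw R B).count c = 2 := by
  rw [count_bw R B hc, List.map_congr_left h, sum_two hab, List.count_eq_one_of_mem hR ha,
    List.count_eq_one_of_mem hR hb]

theorem count_loc {R : List ℕ} {B : ℕ → List ℕ} {c a k : ℕ} (hR : R.Nodup) (ha : a ∈ R)
    (hc : c % 3 ≠ 2)
    (h : ∀ q ∈ R, (B q).count c = if q = a then k else 0) : (Bw R B).count c = k := by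
  rw [count_bw R B hc, List.map_congr_left h, sum_one, List.count_eq_one_of_mem hR ha,
    Nat.mul_one]

/-! ### erasing of letters and separators -/

theorem era (p : ℕ → Bool) (B : ℕ → List ℕ) : ∀ (R : List ℕ), R.Nodup → ∀ acc : List ℕ,
    SFr acc → (∀ r ∈ R, SFr (B r)) → ∃ (B2 : ℕ → List ℕ) (e2 : List ℕ),
      acc ++ (Bw R B).filter p = Bw (R.filter (fun r => p (3 * r + 2))) B2 ++ e2 ∧
      (∀ r ∈ R.filter (fun r => p (3 * r + 2)), SFr (B2 r)) ∧ SFr e2 ∧
      ∀ r ∈ R.filter (fun r => p (3 * r + 2)), ∃ Z, B2 r = Z ++ (B r).filter p := by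
  intro R
  induction R with
  | nil =>
    intro _ acc hacc _
    exact ⟨B, acc, by simp [Bw], by simp, hacc, by simp⟩
  | cons r R ih =>
    intro hnd acc hacc hB
    rw [List.nodup_cons] at hnd
    have hsf : SFr (acc ++ (B r).filter p) := by
      intro c hc
      rw [List.mem_append] at hc
      rcases hc with hc | hc
      · exact hacc c hc
      · exact hB r List.mem_cons_self c (List.mem_filter.1 hc).1
    have hBR : ∀ q ∈ R, SFr (B q) := fun q hq => hB q (List.mem_cons_of_mem _ hq)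
    by_cases hp : p (3 * r + 2) = true
    · obtain ⟨B2, e2, h1, h2, h3, h4⟩ := ih hnd.2 [] (by intro c hc; simp at hc) hBR
      have hne : ∀ q ∈ R.filter (fun r => p (3 * r + 2)), q ≠ r := by
        intro q hq h
        exact hnd.1 (h ▸ (List.mem_filter.1 hq).1)
      refine ⟨fun q => if q = r then acc ++ (B r).filter p else B2 q, e2, ?_, ?_, h3, ?_⟩
      · rw [List.filter_cons_of_pos (by simpa using hp), bw_cons, bw_cons, List.filter_append,
          List.filter_append, List.filter_cons_of_pos hp, List.filter_nil]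
        have h5 : Bw (R.filter (fun r => p (3 * r + 2)))
            (fun q => if q = r then acc ++ (B r).filter p else B2 q) =
              Bw (R.filter (fun r => p (3 * r + 2))) B2 := by
          apply bw_congr
          intro q hq
          rw [if_neg (hne q hq)]
        rw [h5, if_pos rfl]
        rw [List.nil_append] at h1
        rw [h1]
        simp only [List.append_assoc]
      · intro q hq
        rw [List.filter_cons_of_pos (by simpa using hp), List.mem_cons] at hq
        by_cases hqr : q = r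
        · simp only [hqr, if_true]
          exact hsf
        · simp only [hqr, if_false]
          rcases hq with hq | hq
          · exact absurd hq hqr
          · exact h2 q hq
      · intro q hq
        rw [List.filter_cons_of_pos (by simpa using hp), List.mem_cons] at hq
        by_cases hqr : q = r
        · simp only [hqr, if_true]
          exact ⟨acc, rfl⟩
        · simp only [hqr, if_false]
          rcases hq with hq | hq
          · exact absurd hq hqr
          · exact h4 q hq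
    · obtain ⟨B2, e2, h1, h2, h3, h4⟩ := ih hnd.2 (acc ++ (B r).filter p) hsf hBR
      rw [List.filter_cons_of_neg (by simpa using hp)]
      refine ⟨B2, e2, ?_, h2, h3, h4⟩
      rw [bw_cons, List.filter_append, List.filter_append, List.filter_cons_of_neg (by simpa using hp),
        List.filter_nil, List.nil_append, ← List.append_assoc]
      exact h1

/-! ### the labels -/

section labels

variable (s1 s2 r1 r2 h z : ℕ) (P1 P2 P3 Q : List ℕ)

/-- the labels -/
def Rl : List ℕ := lab (P1 ++ s1 :: r1 :: (P2 ++ s2 :: r2 :: (P3 ++ [h]))) (Q ++ [z])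

theorem rl_eq : Rl s1 s2 r1 r2 h z P1 P2 P3 Q =
    P1.map (fun e => e + 1) ++ ((s1 + 1) :: (r1 + 1) :: (P2.map (fun e => e + 1) ++
      ((s2 + 1) :: (r2 + 1) :: (P3.map (fun e => e + 1) ++ ((h + 1) :: 0 ::
        (Q.map (fun e => e + 1) ++ [z + 1])))))) := by
  unfold Rl lab
  simp

theorem rl_xvb : Rl s1 s2 r1 r2 h z P1 P2 P3 Q =
    (P1.map (fun e => e + 1) ++ [s1 + 1]) ++ (r1 + 1) :: ((P2.map (fun e => e + 1) ++ [s2 + 1]) ++
      (r2 + 1) :: ((P3.map (fun e => e + 1) ++ [h + 1]) ++ 0 ::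
        (Q.map (fun e => e + 1) ++ [z + 1]))) := by
  rw [rl_eq]
  simp

theorem rl_flat (g : ℕ → List ℕ) : (Rl s1 s2 r1 r2 h z P1 P2 P3 Q).flatMap g =
    (P1.map (fun e => e + 1)).flatMap g ++ (g (s1 + 1) ++ (g (r1 + 1) ++
      ((P2.map (fun e => e + 1)).flatMap g ++ (g (s2 + 1) ++ (g (r2 + 1) ++
        ((P3.map (fun e => e + 1)).flatMap g ++ (g (h + 1) ++ (g 0 ++
          ((Q.map (fun e => e + 1)).flatMap g ++ g (z + 1)))))))))) := by
  rw [rl_eq]
  simp only [List.flatMap_append, List.flatMap_cons, List.flatMap_nil, List.append_nil]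

/-- the labels of the words `EW` -/
theorem lab_flat (g : ℕ → List ℕ) : (lab (P1 ++ r1 :: (P2 ++ r2 :: P3)) Q).flatMap g =
    (P1.map (fun e => e + 1)).flatMap g ++ (g (r1 + 1) ++
      ((P2.map (fun e => e + 1)).flatMap g ++ (g (r2 + 1) ++
        ((P3.map (fun e => e + 1)).flatMap g ++ (g 0 ++ (Q.map (fun e => e + 1)).flatMap g))))) := by
  unfold lab
  simp only [List.map_append, List.map_cons, List.flatMap_append, List.flatMap_cons,
    List.append_assoc]

theorem map_flat_congr {P : List ℕ} {g g' : ℕ → List ℕ} (hg : ∀ i ∈ P, g (i + 1) = g' (i + 1)) :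
    (P.map (fun e => e + 1)).flatMap g = (P.map (fun e => e + 1)).flatMap g' := by
  apply List.flatMap_congr
  intro r hr
  rw [List.mem_map] at hr
  obtain ⟨i, hi, rfl⟩ := hr
  exact hg i hi

theorem map_filter_self {P : List ℕ} {p : ℕ → Bool} (hp : ∀ i ∈ P, p (i + 1) = true) :
    (P.map (fun e => e + 1)).filter p = P.map (fun e => e + 1) := by
  rw [List.filter_eq_self]
  intro r hr
  rw [List.mem_map] at hr
  obtain ⟨i, hi, rfl⟩ := hr
  exact hp i hi

variable {s1 s2 r1 r2 h z P1 P2 P3 Q}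

theorem mem_rl {q : ℕ} : q ∈ Rl s1 s2 r1 r2 h z P1 P2 P3 Q ↔
    q = 0 ∨ q = s1 + 1 ∨ q = s2 + 1 ∨ q = r1 + 1 ∨ q = r2 + 1 ∨
      ∃ i ∈ P1 ++ (P2 ++ (P3 ++ h :: (Q ++ [z]))), q = i + 1 := by
  rw [rl_eq]
  simp only [List.mem_append, List.mem_cons, List.mem_map, List.not_mem_nil, or_false]
  constructor
  · rintro (⟨i, hi, h1⟩ | h1 | h1 | ⟨i, hi, h1⟩ | h1 | h1 | ⟨i, hi, h1⟩ | h1 | h1 | ⟨i, hi, h1⟩ |
      h1)
    · exact Or.inr (Or.inr (Or.inr (Or.inr (Or.inr ⟨i, Or.inl hi, h1.symm⟩))))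
    · exact Or.inr (Or.inl h1)
    · exact Or.inr (Or.inr (Or.inr (Or.inl h1)))
    · exact Or.inr (Or.inr (Or.inr (Or.inr (Or.inr ⟨i, Or.inr (Or.inl hi), h1.symm⟩))))
    · exact Or.inr (Or.inr (Or.inl h1))
    · exact Or.inr (Or.inr (Or.inr (Or.inr (Or.inl h1))))
    · exact Or.inr (Or.inr (Or.inr (Or.inr (Or.inr ⟨i, Or.inr (Or.inr (Or.inl hi)), h1.symm⟩))))
    · exact Or.inr (Or.inr (Or.inr (Or.inr (Or.inr ⟨h, by simp, h1⟩))))
    · exact Or.inl h1
    · exact Or.inr (Or.inr (Or.inr (Or.inr (Or.inr ⟨i, by simp [hi], h1.symm⟩))))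
    · exact Or.inr (Or.inr (Or.inr (Or.inr (Or.inr ⟨z, by simp, h1⟩))))
  · rintro (h1 | h1 | h1 | h1 | h1 | ⟨i, hi | hi | hi | hi | hi | hi, h1⟩)
    · simp [h1]
    · simp [h1]
    · simp [h1]
    · simp [h1]
    · simp [h1]
    · exact Or.inl ⟨i, hi, h1.symm⟩
    · exact Or.inr (Or.inr (Or.inr (Or.inl ⟨i, hi, h1.symm⟩)))
    · exact Or.inr (Or.inr (Or.inr (Or.inr (Or.inr (Or.inr (Or.inl ⟨i, hi, h1.symm⟩))))))
    · simp [h1, hi]
    · exact Or.inr (Or.inr (Or.inr (Or.inr (Or.inr (Or.inr (Or.inr (Or.inr (Or.inr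
        (Or.inl ⟨i, hi, h1.symm⟩)))))))))
    · simp [h1, hi]

theorem nodup_lab {P Q : List ℕ} (h : (P ++ Q).Nodup) : (lab P Q).Nodup := by
  unfold lab
  have h1 : (P.map (fun e => e + 1) ++ 0 :: Q.map (fun e => e + 1)).Perm
      (0 :: (P ++ Q).map (fun e => e + 1)) := by
    rw [List.map_append]
    exact List.perm_middle
  rw [h1.nodup_iff, List.nodup_cons]
  refine ⟨?_, ?_⟩
  · rw [List.mem_map]
    rintro ⟨i, -, hi⟩
    omega
  · exact List.Nodup.map (fun x y hxy => by simpa using hxy) h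

/-- the distinctness of the places -/
theorem nd_perm (hnd : ((P1 ++ s1 :: r1 :: (P2 ++ s2 :: r2 :: (P3 ++ [h]))) ++
    (Q ++ [z])).Nodup) :
    (s1 :: s2 :: r1 :: r2 :: h :: z :: ((P1 ++ (P2 ++ P3)) ++ Q)).Nodup := by
  have e : ((P1 ++ s1 :: r1 :: (P2 ++ s2 :: r2 :: (P3 ++ [h]))) ++ (Q ++ [z])).Perm
      (s1 :: s2 :: r1 :: r2 :: h :: z :: ((P1 ++ (P2 ++ P3)) ++ Q)) := by
    rw [List.perm_iff_count]
    intro c
    simp only [List.count_append, List.count_cons, List.count_nil]
    omega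
  exact (e.nodup_iff).1 hnd

/-- the projection which keeps `12` -/
theorem proj_ew {B : ℕ → List ℕ} {p : ℕ → Bool} (hr : r1 ≠ r2) (hp2 : p 2 = true)
    (hs1 : (B (s1 + 1)).filter p = [] ∧ p (3 * (s1 + 1) + 2) = false)
    (hs2 : (B (s2 + 1)).filter p = [] ∧ p (3 * (s2 + 1) + 2) = false)
    (hr1 : (B (r1 + 1)).filter p = [12] ∧ p (3 * (r1 + 1) + 2) = true)
    (hr2 : (B (r2 + 1)).filter p = [12] ∧ p (3 * (r2 + 1) + 2) = true)
    (hh : (B (h + 1)).filter p = [] ∧ p (3 * (h + 1) + 2) = false)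
    (hz : (B (z + 1)).filter p = [] ∧ p (3 * (z + 1) + 2) = false)
    (hi : ∀ i ∈ (P1 ++ (P2 ++ P3)) ++ Q, i ≠ r1 ∧ i ≠ r2 ∧ (B (i + 1)).filter p = [3 * i + 1] ∧
      p (3 * (i + 1) + 2) = true) :
    (Bw (Rl s1 s2 r1 r2 h z P1 P2 P3 Q) B).filter p =
      EW 12 r1 r2 P1 P2 P3 Q ((B 0).filter p) := by
  rw [bw_filter, rl_flat]
  unfold EW Wk Bw
  rw [lab_flat]
  have hk1 : kx 12 r1 r2 r1 = 12 := by unfold kx; rw [if_pos (Or.inl rfl)]
  have hk2 : kx 12 r1 r2 r2 = 12 := by unfold kx; rw [if_pos (Or.inr rfl)]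
  have hpc : ∀ P : List ℕ, (∀ i ∈ P, i ∈ (P1 ++ (P2 ++ P3)) ++ Q) →
      (P.map (fun e => e + 1)).flatMap (fun r => (B r).filter p ++ [3 * r + 2].filter p) =
        (P.map (fun e => e + 1)).flatMap (fun r =>
          (if r = 0 then (B 0).filter p else [kx 12 r1 r2 (r - 1)]) ++ [3 * r + 2]) := by
    intro P hP
    apply map_flat_congr
    intro i hi'
    obtain ⟨h1, h2, h3, h4⟩ := hi i (hP i hi')
    have hk : kx 12 r1 r2 i = 3 * i + 1 := by
      unfold kx
      rw [if_neg]
      rintro (h5 | h5)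
      · exact h1 h5
      · exact h2 h5
    simp only [Nat.add_sub_cancel]
    rw [h3, List.filter_cons_of_pos h4, List.filter_nil, if_neg (Nat.succ_ne_zero i), hk]
  rw [hpc P1 (fun i hi => by simp [hi]), hpc P2 (fun i hi => by simp [hi]),
    hpc P3 (fun i hi => by simp [hi]), hpc Q (fun i hi => by simp [hi])]
  have fneg : ∀ t, p t = false → [t].filter p = [] := fun t ht => by
    rw [List.filter_cons_of_neg (by rw [ht]; simp), List.filter_nil]
  have fpos : ∀ t, p t = true → [t].filter p = [t] := fun t ht => by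
    rw [List.filter_cons_of_pos ht, List.filter_nil]
  have f0 : [3 * 0 + 2].filter p = [3 * 0 + 2] := fpos _ hp2
  simp only [Nat.add_sub_cancel]
  rw [hs1.1, hs2.1, hr1.1, hr2.1, hh.1, hz.1, fneg _ hs1.2, fneg _ hs2.2, fpos _ hr1.2,
    fpos _ hr2.2, fneg _ hh.2, fneg _ hz.2, f0, if_neg (Nat.succ_ne_zero r1),
    if_neg (Nat.succ_ne_zero r2), hk1, hk2]
  simp only [List.nil_append, List.append_nil, if_true]

/-- the labels after this projection -/
theorem proj_lab {p : ℕ → Bool} (hp2 : p 2 = true)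
    (hs1 : p (3 * (s1 + 1) + 2) = false)
    (hs2 : p (3 * (s2 + 1) + 2) = false)
    (hr1 : p (3 * (r1 + 1) + 2) = true)
    (hr2 : p (3 * (r2 + 1) + 2) = true)
    (hh : p (3 * (h + 1) + 2) = false)
    (hz : p (3 * (z + 1) + 2) = false)
    (hi : ∀ i ∈ (P1 ++ (P2 ++ P3)) ++ Q, p (3 * (i + 1) + 2) = true) :
    (Rl s1 s2 r1 r2 h z P1 P2 P3 Q).filter (fun r => p (3 * r + 2)) =
      lab (P1 ++ r1 :: (P2 ++ r2 :: P3)) Q := by
  rw [rl_eq]
  unfold lab
  have hf : ∀ P : List ℕ, (∀ i ∈ P, i ∈ (P1 ++ (P2 ++ P3)) ++ Q) →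
      (P.map (fun e => e + 1)).filter (fun r => p (3 * r + 2)) = P.map (fun e => e + 1) := by
    intro P hP
    apply map_filter_self
    intro i hi'
    exact hi i (hP i hi')
  rw [List.filter_append, hf P1 (fun i hi => by simp [hi]),
    List.filter_cons_of_neg (p := fun r => p (3 * r + 2)) (a := s1 + 1) (by rw [hs1]; simp),
    List.filter_cons_of_pos (p := fun r => p (3 * r + 2)) (a := r1 + 1) hr1,
    List.filter_append, hf P2 (fun i hi => by simp [hi]),
    List.filter_cons_of_neg (p := fun r => p (3 * r + 2)) (a := s2 + 1) (by rw [hs2]; simp),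
    List.filter_cons_of_pos (p := fun r => p (3 * r + 2)) (a := r2 + 1) hr2,
    List.filter_append, hf P3 (fun i hi => by simp [hi]),
    List.filter_cons_of_neg (p := fun r => p (3 * r + 2)) (a := h + 1) (by rw [hh]; simp),
    List.filter_cons_of_pos (p := fun r => p (3 * r + 2)) (a := 0) (by simpa using hp2),
    List.filter_append, hf Q (fun i hi => by simp [hi]),
    List.filter_cons_of_neg (p := fun r => p (3 * r + 2)) (a := z + 1) (by rw [hz]; simp),
    List.filter_nil]
  simp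

/-- the projection to `α` -/
theorem proj_wm {B : ℕ → List ℕ} {p : ℕ → Bool} (hp2 : p 2 = true)
    (hs1 : (B (s1 + 1)).filter p = [] ∧ p (3 * (s1 + 1) + 2) = false)
    (hs2 : (B (s2 + 1)).filter p = [] ∧ p (3 * (s2 + 1) + 2) = false)
    (hr1 : (B (r1 + 1)).filter p = [] ∧ p (3 * (r1 + 1) + 2) = false)
    (hr2 : (B (r2 + 1)).filter p = [] ∧ p (3 * (r2 + 1) + 2) = false)
    (hh : (B (h + 1)).filter p = [] ∧ p (3 * (h + 1) + 2) = false)
    (hz : (B (z + 1)).filter p = [] ∧ p (3 * (z + 1) + 2) = false)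
    (hi : ∀ i ∈ (P1 ++ (P2 ++ P3)) ++ Q, (B (i + 1)).filter p = [3 * i + 1] ∧
      p (3 * (i + 1) + 2) = true) :
    (Bw (Rl s1 s2 r1 r2 h z P1 P2 P3 Q) B).filter p =
      Wm (P1 ++ (P2 ++ P3)) Q ((B 0).filter p) := by
  rw [bw_filter, rl_flat]
  unfold Wm Bw
  have hpc : ∀ P : List ℕ, (∀ i ∈ P, i ∈ (P1 ++ (P2 ++ P3)) ++ Q) →
      (P.map (fun e => e + 1)).flatMap (fun r => (B r).filter p ++ [3 * r + 2].filter p) =
        (P.map (fun e => e + 1)).flatMap (fun r =>
          (if r = 0 then (B 0).filter p else [3 * (r - 1) + 1]) ++ [3 * r + 2]) := by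
    intro P hP
    apply map_flat_congr
    intro i hi'
    obtain ⟨h3, h4⟩ := hi i (hP i hi')
    simp only [Nat.add_sub_cancel]
    rw [h3, List.filter_cons_of_pos h4, List.filter_nil, if_neg (Nat.succ_ne_zero i)]
  rw [hpc P1 (fun i hi => by simp [hi]), hpc P2 (fun i hi => by simp [hi]),
    hpc P3 (fun i hi => by simp [hi]), hpc Q (fun i hi => by simp [hi])]
  have fneg : ∀ t, p t = false → [t].filter p = [] := fun t ht => by
    rw [List.filter_cons_of_neg (by rw [ht]; simp), List.filter_nil]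
  have f0 : [3 * 0 + 2].filter p = [3 * 0 + 2] := by
    rw [List.filter_cons_of_pos (by simpa using hp2), List.filter_nil]
  rw [hs1.1, hs2.1, hr1.1, hr2.1, hh.1, hz.1, fneg _ hs1.2, fneg _ hs2.2, fneg _ hr1.2,
    fneg _ hr2.2, fneg _ hh.2, fneg _ hz.2, f0]
  simp only [List.map_append, List.flatMap_append, List.flatMap_cons,
    List.nil_append, List.append_nil, List.append_assoc, if_true]

end labels

end Pool.Agent.MVD.H62.Esc
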